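import Pool.Agent.H76.TP.Half

/-!
Almost surely every ray is unbounded in all directions at once.
-/

open MeasureTheory Filter

namespace H76.TP

/-- the height in direction `u` is bounded above along the sequence. -/
private def Kb {V : Type*} (h : V → Fin 3 → ℝ) (ρ : ℕ → V) (u : Fin 3 → ℝ) : Prop :=
  BddAbove (Set.range fun t => ∑ i, u i * h (ρ t) i)

section cone

variable {V : Type*} {h : V → Fin 3 → ℝ} {ρ σ : ℕ → V}

private theorem kb_add {u v : Fin 3 → ℝ} (hu : Kb h ρ u) (hv : Kb h ρ v) :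
    Kb h ρ fun i => u i + v i := by
  obtain ⟨a, ha⟩ := hu
  obtain ⟨b, hb⟩ := hv
  refine ⟨a + b, ?_⟩
  rintro _ ⟨t, rfl⟩
  have h1 := ha ⟨t, rfl⟩
  have h2 := hb ⟨t, rfl⟩
  simp only at h1 h2 ⊢
  calc ∑ i, (u i + v i) * h (ρ t) i = ∑ i, u i * h (ρ t) i + ∑ i, v i * h (ρ t) i := by
        rw [← Finset.sum_add_distrib]
        exact Finset.sum_congr rfl fun i _ => by ring
    _ ≤ a + b := by linarith

private theorem kb_mul {u : Fin 3 → ℝ} (hu : Kb h ρ u) {s : ℝ} (hs : 0 ≤ s) :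
    Kb h ρ fun i => s * u i := by
  obtain ⟨a, ha⟩ := hu
  refine ⟨s * a, ?_⟩
  rintro _ ⟨t, rfl⟩
  have h1 := ha ⟨t, rfl⟩
  simp only at h1 ⊢
  calc ∑ i, s * u i * h (ρ t) i = s * ∑ i, u i * h (ρ t) i := by
        rw [Finset.mul_sum]
        exact Finset.sum_congr rfl fun i _ => by ring
    _ ≤ s * a := mul_le_mul_of_nonneg_left h1 hs

private theorem kb_tail {u : Fin 3 → ℝ} (n : ℕ) (hu : Kb h (fun t => ρ (n + t)) u) :
    Kb h ρ u := by
  induction n with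
  | zero => simpa using hu
  | succ n ih =>
    apply ih
    obtain ⟨a, ha⟩ := hu
    refine ⟨max a (∑ i, u i * h (ρ (n + 0)) i), ?_⟩
    rintro _ ⟨t, rfl⟩
    rcases t with _ | t
    · exact le_max_right _ _
    · refine le_trans ?_ (le_max_left _ _)
      have h1 := ha ⟨t, rfl⟩
      simp only at h1 ⊢
      rw [show n + (t + 1) = n + 1 + t by omega]
      exact h1

private theorem kb_same {u : Fin 3 → ℝ} (hs : Same ρ σ) (hu : Kb h ρ u) : Kb h σ u := by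
  obtain ⟨a, b, hab⟩ := hs
  refine kb_tail b ?_
  obtain ⟨c, hc⟩ := hu
  refine ⟨c, ?_⟩
  rintro _ ⟨t, rfl⟩
  have h1 := hc ⟨a + t, rfl⟩
  simp only at h1 ⊢
  rw [← hab]
  exact h1

/-- the points of the faces of the cube. -/
private def ph (i : Fin 3) (e a b : ℝ) : Fin 3 → ℝ :=
  fun j => if j = i then e else if j = i + 1 then a else b

private theorem kb_ph {i : Fin 3} {e a b a' b' : ℝ} (h1 : Kb h ρ (ph i e a b))
    (h2 : Kb h ρ (ph i e a' b')) {s : ℝ} (hs0 : 0 ≤ s) (hs1 : s ≤ 1) :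
    Kb h ρ (ph i e ((1 - s) * a + s * a') ((1 - s) * b + s * b')) := by
  have h3 := kb_add (kb_mul h1 (sub_nonneg.2 hs1)) (kb_mul h2 hs0)
  have e1 : (fun j => (1 - s) * ph i e a b j + s * ph i e a' b' j) =
      ph i e ((1 - s) * a + s * a') ((1 - s) * b + s * b') := by
    funext j
    unfold ph
    split_ifs
    · ring
    · rfl
    · rfl
  rw [← e1]
  exact h3

end cone

/-- a convex set of real numbers without rational points. -/
private theorem at_most_one {S : Set ℝ}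
    (hc : ∀ x ∈ S, ∀ y ∈ S, ∀ s : ℝ, 0 ≤ s → s ≤ 1 → (1 - s) * x + s * y ∈ S)
    (hq : ∀ q : ℚ, (q : ℝ) ∉ S) : ∀ x ∈ S, ∀ y ∈ S, x = y := by
  have key : ∀ x ∈ S, ∀ y ∈ S, ¬ x < y := by
    intro x hx y hy hxy
    obtain ⟨q, h1, h2⟩ := exists_rat_btwn hxy
    have hd : 0 < y - x := by linarith
    have h3 := hc x hx y hy ((q - x) / (y - x)) (div_nonneg (by linarith) hd.le)
      ((div_le_one hd).2 (by linarith))
    have h4 : (1 - (q - x) / (y - x)) * x + (q - x) / (y - x) * y = q := by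
      field_simp
      ring
    rw [h4] at h3
    exact hq q h3
  intro x hx y hy
  rcases lt_trichotomy x y with h | h | h
  · exact absurd h (key x hx y hy)
  · exact h
  · exact absurd h (key y hy x hx)

/-- a random finite set with deterministic distribution has a deterministic point. -/
private theorem det_point {Ω : Type*} [MeasurableSpace Ω] (P : Measure Ω) [IsProbabilityMeasure P]
    (B : Ω → Set ℝ) (hB : ∀ ω, B ω ⊆ Set.Icc (-1) 1) (hfin : ∀ᵐ ω ∂P, (B ω).Finite)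
    (h01 : ∀ r : ℝ, (∀ᵐ ω ∂P, ∃ b ∈ B ω, b ≤ r) ∨ ∀ᵐ ω ∂P, ¬ ∃ b ∈ B ω, b ≤ r)
    (hpt : ∀ b : ℝ, ∀ᵐ ω ∂P, b ∉ B ω) : ∀ᵐ ω ∂P, B ω = ∅ := by
  set S : Set ℝ := {r | ∀ᵐ ω ∂P, ∃ b ∈ B ω, b ≤ r} with hS
  rcases h01 1 with h1 | h1
  · exfalso
    have hne : S.Nonempty := ⟨1, h1⟩
    have hbd : BddBelow S := by
      refine ⟨-1, fun r hr => ?_⟩
      have hr' : ∀ᵐ ω ∂P, ∃ b ∈ B ω, b ≤ r := hr
      obtain ⟨ω, b, hb, hbr⟩ := hr'.exists
      exact (hB ω hb).1.trans hbr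
    set b0 : ℝ := sInf S with hb0
    have hlo : ∀ n : ℕ, ∀ᵐ ω ∂P, ¬ ∃ b ∈ B ω, b ≤ b0 - 1 / (n + 1) := by
      intro n
      rcases h01 (b0 - 1 / (n + 1)) with h | h
      · exfalso
        have h2 : b0 ≤ b0 - 1 / (n + 1) := csInf_le hbd h
        have h3 : (0 : ℝ) < 1 / (n + 1) := by positivity
        linarith
      · exact h
    have hup : ∀ n : ℕ, ∀ᵐ ω ∂P, ∃ b ∈ B ω, b ≤ b0 + 1 / (n + 1) := by
      intro n
      have h3 : (0 : ℝ) < 1 / (n + 1) := by positivity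
      obtain ⟨r, hr, hr2⟩ := exists_lt_of_csInf_lt hne (show sInf S < b0 + 1 / (n + 1) by
        rw [← hb0]
        linarith)
      have hr' : ∀ᵐ ω ∂P, ∃ b ∈ B ω, b ≤ r := hr
      filter_upwards [hr'] with ω hω
      obtain ⟨b, hb, hbr⟩ := hω
      exact ⟨b, hb, hbr.trans hr2.le⟩
    have hall : ∀ᵐ ω ∂P, False := by
      filter_upwards [hfin, ae_all_iff.2 hlo, ae_all_iff.2 hup, hpt b0] with ω hf hl hu hp
      obtain ⟨b1, hb1, -⟩ := hu 0
      obtain ⟨m, hm, hmin⟩ := Set.exists_min_image (B ω) id hf ⟨b1, hb1⟩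
      have hmin' : ∀ b ∈ B ω, m ≤ b := hmin
      have hle : m ≤ b0 := by
        by_contra hlt
        push Not at hlt
        obtain ⟨n, hn⟩ := exists_nat_one_div_lt (sub_pos.2 hlt)
        obtain ⟨b, hb, hbn⟩ := hu n
        have := hmin' b hb
        linarith
      have hge : b0 ≤ m := by
        by_contra hlt
        push Not at hlt
        obtain ⟨n, hn⟩ := exists_nat_one_div_lt (sub_pos.2 hlt)
        exact hl n ⟨m, hm, by linarith⟩
      exact hp (le_antisymm hle hge ▸ hm)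
    obtain ⟨ω, hω⟩ := hall.exists
    exact hω
  · filter_upwards [h1] with ω hω
    rw [Set.eq_empty_iff_forall_notMem]
    intro b hb
    exact hω ⟨b, hb, (hB ω hb).2⟩

/-- closed sets of sequences. -/
private theorem isClosed_seq {V : Type*} [TopologicalSpace V] [DiscreteTopology V]
    (h : V → Fin 3 → ℝ) (Q : Set (Fin 3 → ℝ)) (hQ : IsCompact Q) (c : ℝ) :
    IsClosed {σ : ℕ → V | ∃ u ∈ Q, ∀ t, ∑ i, u i * h (σ t) i ≤ c} := by
  have : CompactSpace Q := isCompact_iff_compactSpace.1 hQ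
  have hcl : IsClosed {p : Q × (ℕ → V) | ∀ t, ∑ i, p.1.1 i * h (p.2 t) i ≤ c} := by
    rw [show {p : Q × (ℕ → V) | ∀ t, ∑ i, p.1.1 i * h (p.2 t) i ≤ c} =
      ⋂ t, {p : Q × (ℕ → V) | ∑ i, p.1.1 i * h (p.2 t) i ≤ c} by
        ext p
        simp]
    refine isClosed_iInter fun t => isClosed_le ?_ continuous_const
    refine continuous_finsetSum _ fun i _ => ?_
    refine Continuous.mul ?_ ?_
    · exact (continuous_apply i).comp (continuous_subtype_val.comp continuous_fst)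
    · have h1 : Continuous fun v : V => h v i := continuous_of_discreteTopology
      exact h1.comp ((continuous_apply t).comp continuous_snd)
  have himg := isClosedMap_snd_of_compactSpace (X := Q) (Y := ℕ → V) _ hcl
  have e : {σ : ℕ → V | ∃ u ∈ Q, ∀ t, ∑ i, u i * h (σ t) i ≤ c} =
      Prod.snd '' {p : Q × (ℕ → V) | ∀ t, ∑ i, p.1.1 i * h (p.2 t) i ≤ c} := by
    ext σ
    constructor
    · rintro ⟨u, hu, hσ⟩
      exact ⟨(⟨u, hu⟩, σ), hσ, rfl⟩
    · rintro ⟨⟨u, τ⟩, hp, rfl⟩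
      exact ⟨u.1, u.2, hp⟩
  rw [e]
  exact himg

private theorem measurableSet_dir {V Ω : Type*} [Countable V] [MeasurableSpace Ω]
    {G : Ω → SimpleGraph V} (hG : ∀ ω, Deg2 (G ω))
    (hm : ∀ x y, MeasurableSet {ω | (G ω).Adj x y}) (h : V → Fin 3 → ℝ)
    (Q : Set (Fin 3 → ℝ)) (hQ : IsCompact Q) :
    MeasurableSet {ω | ∃ ρ, IsRay (G ω) ρ ∧ ∃ u ∈ Q, Kb h ρ u} := by
  classical
  let _ : TopologicalSpace V := ⊥
  have : DiscreteTopology V := ⟨rfl⟩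
  let _ : MeasurableSpace V := ⊤
  have hmr : ∀ x y : V, Measurable fun ω => theRay (G ω) x y := by
    intro x y
    rw [measurable_pi_iff]
    intro t
    refine measurable_to_countable' fun z => ?_
    have e : (fun ω => theRay (G ω) x y t) ⁻¹' {z} =
        {ω | HasRay (G ω) x y ∧ theRay (G ω) x y t = z} ∪
          ({ω | HasRay (G ω) x y}ᶜ ∩ {_ω | x = z}) := by
      ext ω
      simp only [Set.mem_preimage, Set.mem_singleton_iff, Set.mem_union, Set.mem_ofPred_eq,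
        Set.mem_inter_iff, Set.mem_compl_iff]
      by_cases hr : HasRay (G ω) x y
      · simp [hr]
      · have : theRay (G ω) x y t = x := by
          unfold theRay
          rw [dif_neg hr]
        simp [hr, this]
    rw [e]
    exact (measurableSet_theRay hG hm x y t z).union
      ((measurableSet_hasRay hG hm x y).compl.inter (MeasurableSet.const _))
  have e : {ω | ∃ ρ, IsRay (G ω) ρ ∧ ∃ u ∈ Q, Kb h ρ u} =
      ⋃ x : V, ⋃ y : V, ⋃ c : ℕ, ({ω | HasRay (G ω) x y} ∩ (fun ω => theRay (G ω) x y) ⁻¹'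
        {σ : ℕ → V | ∃ u ∈ Q, ∀ t, ∑ i, u i * h (σ t) i ≤ c}) := by
    ext ω
    simp only [Set.mem_ofPred_eq, Set.mem_iUnion, Set.mem_inter_iff, Set.mem_preimage]
    constructor
    · rintro ⟨ρ, hρ, u, hu, c, hc⟩
      obtain ⟨n, hn⟩ := exists_nat_ge c
      refine ⟨ρ 0, ρ 1, n, ⟨ρ, hρ, rfl, rfl⟩, u, hu, fun t => ?_⟩
      rw [theRay_eq (hG ω) hρ]
      exact (hc ⟨t, rfl⟩).trans hn
    · rintro ⟨x, y, c, hr, u, hu, hc⟩
      refine ⟨_, (theRay_spec hr).1, u, hu, c, ?_⟩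
      rintro _ ⟨t, rfl⟩
      exact hc t
  rw [e]
  refine MeasurableSet.iUnion fun x => MeasurableSet.iUnion fun y => MeasurableSet.iUnion fun c =>
    (measurableSet_hasRay hG hm x y).inter (hmr x y ?_)
  exact (isClosed_seq h Q hQ c).measurableSet

/-- the height of a vertex. -/
private def hb (Q : Vertex) (i : Fin 3) : ℝ := (bary Q i : ℝ)

/-- finitely many paths, and some ray which is bounded above in a direction of `Q`. -/
private def Ev (Q : Set (Fin 3 → ℝ)) : Set (bcc → Fin 3) :=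
  {ω | (infinitePaths ω).Finite ∧ ∃ ρ, IsRay (tri ω) ρ ∧ ∃ u ∈ Q, Kb hb ρ u}

private theorem ev_sh (Q : Set (Fin 3 → ℝ)) (g : bcc) (ω : bcc → Fin 3) (hω : sh g ω ∈ Ev Q) :
    ω ∈ Ev Q := by
  obtain ⟨hf, ρ, hρ, u, hu, c, hc⟩ := hω
  refine ⟨?_, fun t => g +ᵥ ρ t, ⟨fun a b hab => hρ.1 ?_, fun t => (adj_sh g ω _ _).1 (hρ.2 t)⟩,
    u, hu, c + ∑ i, u i * (4 * g.1 i : ℝ), ?_⟩
  · have h1 := encard_sh g ω
    rw [← Set.encard_lt_top_iff, ← h1, Set.encard_lt_top_iff]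
    exact hf
  · exact (AddAction.toPerm g).injective hab
  · rintro _ ⟨t, rfl⟩
    have h1 := hc ⟨t, rfl⟩
    simp only at h1 ⊢
    have h2 : ∀ i, hb (g +ᵥ ρ t) i = hb (ρ t) i + 4 * g.1 i := by
      intro i
      unfold hb
      rw [bary_vadd]
      push_cast
      ring
    simp only [h2, mul_add, Finset.sum_add_distrib]
    linarith

private theorem ev_zero_one (μ : Measure (Fin 3)) [IsProbabilityMeasure μ]
    (Q : Set (Fin 3 → ℝ)) (hQ : IsCompact Q) :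
    (∀ᵐ ω ∂law μ, ω ∈ Ev Q) ∨ ∀ᵐ ω ∂law μ, ω ∉ Ev Q := by
  have hms : MeasurableSet (Ev Q) :=
    (measurableSet_finite measurableSet_adj).inter
      (measurableSet_dir deg2_tri measurableSet_adj hb Q hQ)
  rcases zero_one μ e0 e0_ne (Ev Q) hms (by
    intro ω
    constructor
    · exact ev_sh Q e0 ω
    · intro hω
      refine ev_sh Q (-e0) (sh e0 ω) ?_
      rw [sh_sh, neg_add_cancel]
      have : sh 0 ω = ω := by
        funext v
        show ω (v + 0) = ω v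
        rw [add_zero]
      rw [this]
      exact hω) with h | h
  · right
    exact measure_eq_zero_iff_ae_notMem.1 h
  · left
    exact (mem_ae_iff_prob_eq_one hms).2 h

private theorem ph_cont (i : Fin 3) (e : ℝ) : Continuous fun p : ℝ × ℝ => ph i e p.1 p.2 := by
  refine continuous_pi fun j => ?_
  unfold ph
  split_ifs
  · exact continuous_const
  · exact continuous_fst
  · exact continuous_snd

private theorem ph_ne {i : Fin 3} {e : ℝ} (he : e ≠ 0) (a b : ℝ) : ph i e a b ≠ 0 := by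
  intro h
  have := congrFun h i
  unfold ph at this
  simp at this
  exact he this

/-- no ray is bounded above in a fixed direction. -/
private theorem fixed (μ : Measure (Fin 3)) [IsProbabilityMeasure μ] (u : Fin 3 → ℝ)
    (hu : u ≠ 0) : ∀ᵐ ω ∂law μ, (infinitePaths ω).Finite → ∀ ρ, IsRay (tri ω) ρ →
      ¬ Kb hb ρ u := by
  filter_upwards [halfspaces μ u hu] with ω h hf ρ hρ hk
  obtain ⟨c, hc⟩ := hk
  obtain ⟨t, ht⟩ := (h hf ρ hρ ((c + 1 + 8 * ∑ i, |u i|) / 4)).nonempty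
  obtain ⟨v, hv⟩ : (ρ t).1.Nonempty := by
    rw [← Finset.card_pos, (ρ t).2.1]
    norm_num
  have h1 := ht v hv
  have h2 := hc ⟨t, rfl⟩
  have h3 := height_close (fun i => - u i) (ρ t) v hv
  simp only [neg_mul, Finset.sum_neg_distrib, abs_neg] at h3
  have h4 : ∑ i, u i * hb (ρ t) i = ∑ i, u i * (bary (ρ t) i : ℝ) := rfl
  simp only at h2
  rw [h4] at h2
  linarith

private theorem ends_fin {ω : bcc → Fin 3} (hf : (infinitePaths ω).Finite) (B : Set ℝ)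
    (R : ℝ → (ℕ → Vertex) → Prop) (hR : ∀ b ∈ B, ∃ ρ, IsRay (tri ω) ρ ∧ R b ρ)
    (huniq : ∀ b ∈ B, ∀ b' ∈ B, ∀ ρ σ, IsRay (tri ω) ρ → IsRay (tri ω) σ → R b ρ → R b' σ →
      Same ρ σ → b = b') : B.Finite := by
  by_contra hinf
  have hinf' : B.Infinite := hinf
  let f : ℕ → ℝ := fun n => (Set.Infinite.natEmbedding B hinf' n : ℝ)
  have hfB : ∀ n, f n ∈ B := fun n => (Set.Infinite.natEmbedding B hinf' n).2
  have hfi : Function.Injective f := fun a b hab =>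
    (Set.Infinite.natEmbedding B hinf').injective (Subtype.ext hab)
  choose r hr1 hr2 using fun n => hR (f n) (hfB n)
  have := ends_finite (deg2_tri ω) hf Set.univ r (fun n _ => hr1 n)
    (fun m _ n _ hs => hfi (huniq _ (hfB m) _ (hfB n) _ _ (hr1 m) (hr1 n) (hr2 m) (hr2 n) hs))
  exact Set.infinite_univ this

private theorem line (μ : Measure (Fin 3)) [IsProbabilityMeasure μ] (i : Fin 3) (e : ℝ)
    (he : e ≠ 0) (a : ℝ) : ∀ᵐ ω ∂law μ, (infinitePaths ω).Finite → ∀ ρ, IsRay (tri ω) ρ →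
      ∀ b ∈ Set.Icc (-1 : ℝ) 1, ¬ Kb hb ρ (ph i e a b) := by
  have hrat : ∀ᵐ ω ∂law μ, ∀ q : ℚ, (infinitePaths ω).Finite → ∀ ρ, IsRay (tri ω) ρ →
      ¬ Kb hb ρ (ph i e a q) := by
    rw [ae_all_iff]
    exact fun q => fixed μ _ (ph_ne he a q)
  have h := det_point (law μ) (fun ω => {b | b ∈ Set.Icc (-1 : ℝ) 1 ∧ (infinitePaths ω).Finite ∧
    ∃ ρ, IsRay (tri ω) ρ ∧ Kb hb ρ (ph i e a b)}) (fun ω b hb => hb.1) ?_ ?_ ?_
  · filter_upwards [h] with ω hω hf ρ hρ b hb hk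
    have : b ∈ (∅ : Set ℝ) := hω ▸ ⟨hb, hf, ρ, hρ, hk⟩
    exact this
  · filter_upwards [hrat] with ω hq
    by_cases hf : (infinitePaths ω).Finite
    · refine ends_fin hf _ (fun b ρ => b ∈ Set.Icc (-1 : ℝ) 1 ∧ Kb hb ρ (ph i e a b)) ?_ ?_
      · rintro b ⟨hb, -, ρ, hρ, hk⟩
        exact ⟨ρ, hρ, hb, hk⟩
      · rintro b - b' - ρ σ hρ hσ ⟨-, hk⟩ ⟨-, hk'⟩ hs
        refine at_most_one (S := {b | Kb hb σ (ph i e a b)}) ?_ (fun q => hq q hf σ hσ) b
          (kb_same hs hk) b' hk'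
        intro x hx y hy s h0 h1
        have := kb_ph hx hy h0 h1
        rw [show (1 - s) * a + s * a = a by ring] at this
        exact this
    · refine Set.Finite.subset Set.finite_empty ?_
      rintro b ⟨-, h, -⟩
      exact absurd h hf
  · intro r
    have hQ : IsCompact ((fun b => ph i e a b) '' (Set.Icc (-1 : ℝ) 1 ∩ Set.Iic r)) := by
      refine IsCompact.image (isCompact_Icc.inter_right isClosed_Iic) ?_
      exact (ph_cont i e).comp (Continuous.prodMk continuous_const continuous_id)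
    have hiff : ∀ ω, ω ∈ Ev ((fun b => ph i e a b) '' (Set.Icc (-1 : ℝ) 1 ∩ Set.Iic r)) ↔
        ∃ b ∈ {b | b ∈ Set.Icc (-1 : ℝ) 1 ∧ (infinitePaths ω).Finite ∧
          ∃ ρ, IsRay (tri ω) ρ ∧ Kb hb ρ (ph i e a b)}, b ≤ r := by
      intro ω
      constructor
      · rintro ⟨hf, ρ, hρ, _, ⟨b, ⟨hb1, hb2⟩, rfl⟩, hk⟩
        exact ⟨b, ⟨hb1, hf, ρ, hρ, hk⟩, hb2⟩
      · rintro ⟨b, ⟨hb1, hf, ρ, hρ, hk⟩, hb2⟩
        exact ⟨hf, ρ, hρ, _, ⟨b, ⟨hb1, hb2⟩, rfl⟩, hk⟩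
    rcases ev_zero_one μ _ hQ with h | h
    · left
      filter_upwards [h] with ω hω
      exact (hiff ω).1 hω
    · right
      filter_upwards [h] with ω hω hcon
      exact hω ((hiff ω).2 hcon)
  · intro b
    filter_upwards [fixed μ _ (ph_ne (i := i) he a b)] with ω hω
    rintro ⟨-, hf, ρ, hρ, hk⟩
    exact hω hf ρ hρ hk

private theorem face (μ : Measure (Fin 3)) [IsProbabilityMeasure μ] (i : Fin 3) (e : ℝ)
    (he : e ≠ 0) : ∀ᵐ ω ∂law μ, (infinitePaths ω).Finite → ∀ ρ, IsRay (tri ω) ρ →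
      ∀ a ∈ Set.Icc (-1 : ℝ) 1, ∀ b ∈ Set.Icc (-1 : ℝ) 1, ¬ Kb hb ρ (ph i e a b) := by
  have hrat : ∀ᵐ ω ∂law μ, ∀ q : ℚ, (infinitePaths ω).Finite → ∀ ρ, IsRay (tri ω) ρ →
      ∀ b ∈ Set.Icc (-1 : ℝ) 1, ¬ Kb hb ρ (ph i e q b) := by
    rw [ae_all_iff]
    exact fun q => line μ i e he q
  have h := det_point (law μ) (fun ω => {a | a ∈ Set.Icc (-1 : ℝ) 1 ∧ (infinitePaths ω).Finite ∧
    ∃ ρ, IsRay (tri ω) ρ ∧ ∃ b ∈ Set.Icc (-1 : ℝ) 1, Kb hb ρ (ph i e a b)})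
    (fun ω b hb => hb.1) ?_ ?_ ?_
  · filter_upwards [h] with ω hω hf ρ hρ a ha b hb hk
    have : a ∈ (∅ : Set ℝ) := hω ▸ ⟨ha, hf, ρ, hρ, b, hb, hk⟩
    exact this
  · filter_upwards [hrat] with ω hq
    by_cases hf : (infinitePaths ω).Finite
    · refine ends_fin hf _ (fun a ρ => ∃ b ∈ Set.Icc (-1 : ℝ) 1, Kb hb ρ (ph i e a b)) ?_ ?_
      · rintro a ⟨-, -, ρ, hρ, hk⟩
        exact ⟨ρ, hρ, hk⟩
      · rintro a - a' - ρ σ hρ hσ ⟨b, hb1, hk⟩ ⟨b', hb1', hk'⟩ hs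
        refine at_most_one (S := {a | ∃ b ∈ Set.Icc (-1 : ℝ) 1, Kb hb σ (ph i e a b)}) ?_
          ?_ a ⟨b, hb1, kb_same hs hk⟩ a' ⟨b', hb1', hk'⟩
        · rintro x ⟨bx, hbx, hx⟩ y ⟨by', hby, hy⟩ s h0 h1
          refine ⟨(1 - s) * bx + s * by', ?_, kb_ph hx hy h0 h1⟩
          have := (convex_Icc (-1 : ℝ) 1) hbx hby (sub_nonneg.2 h1) h0 (by ring)
          simpa using this
        · rintro q ⟨b, hb1, hk⟩
          exact hq q hf σ hσ b hb1 hk
    · refine Set.Finite.subset Set.finite_empty ?_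
      rintro b ⟨-, h, -⟩
      exact absurd h hf
  · intro r
    have hQ : IsCompact ((fun p : ℝ × ℝ => ph i e p.1 p.2) ''
        ((Set.Icc (-1 : ℝ) 1 ∩ Set.Iic r) ×ˢ Set.Icc (-1 : ℝ) 1)) :=
      IsCompact.image ((isCompact_Icc.inter_right isClosed_Iic).prod isCompact_Icc)
        (ph_cont i e)
    have hiff : ∀ ω, ω ∈ Ev ((fun p : ℝ × ℝ => ph i e p.1 p.2) ''
        ((Set.Icc (-1 : ℝ) 1 ∩ Set.Iic r) ×ˢ Set.Icc (-1 : ℝ) 1)) ↔
        ∃ a ∈ {a | a ∈ Set.Icc (-1 : ℝ) 1 ∧ (infinitePaths ω).Finite ∧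
          ∃ ρ, IsRay (tri ω) ρ ∧ ∃ b ∈ Set.Icc (-1 : ℝ) 1, Kb hb ρ (ph i e a b)}, a ≤ r := by
      intro ω
      constructor
      · rintro ⟨hf, ρ, hρ, _, ⟨⟨a, b⟩, ⟨⟨ha1, ha2⟩, hb1⟩, rfl⟩, hk⟩
        exact ⟨a, ⟨ha1, hf, ρ, hρ, b, hb1, hk⟩, ha2⟩
      · rintro ⟨a, ⟨ha1, hf, ρ, hρ, b, hb1, hk⟩, ha2⟩
        exact ⟨hf, ρ, hρ, _, ⟨(a, b), ⟨⟨ha1, ha2⟩, hb1⟩, rfl⟩, hk⟩
    rcases ev_zero_one μ _ hQ with h | h
    · left
      filter_upwards [h] with ω hω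
      exact (hiff ω).1 hω
    · right
      filter_upwards [h] with ω hω hcon
      exact hω ((hiff ω).2 hcon)
  · intro a
    filter_upwards [line μ i e he a] with ω hω
    rintro ⟨-, hf, ρ, hρ, b, hb1, hk⟩
    exact hω hf ρ hρ b hb1 hk

private theorem third : ∀ i j : Fin 3, j ≠ i → j ≠ i + 1 → j = i + 2 := by decide

/-- every nonzero vector is a positive multiple of a point of a face. -/
private theorem to_face (u : Fin 3 → ℝ) (hu : u ≠ 0) : ∃ s : ℝ, 0 < s ∧ ∃ i : Fin 3,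
    ∃ e : ℝ, (e = 1 ∨ e = -1) ∧ ∃ a ∈ Set.Icc (-1 : ℝ) 1, ∃ b ∈ Set.Icc (-1 : ℝ) 1,
      (fun j => s * u j) = ph i e a b := by
  obtain ⟨i, hi⟩ := Finite.exists_max fun j => |u j|
  have hpos : 0 < |u i| := by
    obtain ⟨j, hj⟩ := Function.ne_iff.1 hu
    exact (abs_pos.2 hj).trans_le (hi j)
  have hb : ∀ j, 1 / |u i| * u j ∈ Set.Icc (-1 : ℝ) 1 := by
    intro j
    rw [Set.mem_Icc, ← abs_le, abs_mul, abs_of_pos (by positivity : (0 : ℝ) < 1 / |u i|),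
      one_div, inv_mul_le_iff₀ hpos, mul_one]
    exact hi j
  refine ⟨1 / |u i|, by positivity, i, 1 / |u i| * u i, ?_, _, hb (i + 1), _, hb (i + 2), ?_⟩
  · rcases lt_or_gt_of_ne (abs_pos.1 hpos) with h | h
    · right
      rw [abs_of_neg h]
      have : u i ≠ 0 := h.ne
      field_simp
    · left
      rw [abs_of_pos h]
      have : u i ≠ 0 := h.ne'
      field_simp
  · funext j
    unfold ph
    split_ifs with h1 h2
    · rw [h1]
    · rw [h2]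
    · rw [third i j h1 h2]

theorem allDirections (μ : Measure (Fin 3)) [IsProbabilityMeasure μ] :
    ∀ᵐ ω ∂law μ, (infinitePaths ω).Finite → ∀ ρ, IsRay (tri ω) ρ → ∀ u : Fin 3 → ℝ, u ≠ 0 →
      ∀ c : ℝ, {t | ∀ v ∈ (ρ t).1, c ≤ ∑ i, u i * (v.1 i : ℝ)}.Infinite := by
  have h1 : ∀ᵐ ω ∂law μ, ∀ i : Fin 3, (infinitePaths ω).Finite → ∀ ρ, IsRay (tri ω) ρ →
      ∀ a ∈ Set.Icc (-1 : ℝ) 1, ∀ b ∈ Set.Icc (-1 : ℝ) 1, ¬ Kb hb ρ (ph i 1 a b) := by
    rw [ae_all_iff]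
    exact fun i => face μ i 1 one_ne_zero
  have h2 : ∀ᵐ ω ∂law μ, ∀ i : Fin 3, (infinitePaths ω).Finite → ∀ ρ, IsRay (tri ω) ρ →
      ∀ a ∈ Set.Icc (-1 : ℝ) 1, ∀ b ∈ Set.Icc (-1 : ℝ) 1, ¬ Kb hb ρ (ph i (-1) a b) := by
    rw [ae_all_iff]
    exact fun i => face μ i (-1) (by norm_num)
  filter_upwards [h1, h2] with ω h1 h2 hf ρ hρ u hu c
  by_contra hfin
  have hfin' : {t | ∀ v ∈ (ρ t).1, c ≤ ∑ i, u i * (v.1 i : ℝ)}.Finite := Set.not_infinite.1 hfin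
  obtain ⟨M, hM⟩ := hfin'.bddAbove
  have hk : Kb hb (fun t => ρ (M + 1 + t)) u := by
    refine ⟨4 * c + 8 * ∑ i, |u i|, ?_⟩
    rintro _ ⟨t, rfl⟩
    have hn : ¬ ∀ v ∈ (ρ (M + 1 + t)).1, c ≤ ∑ i, u i * (v.1 i : ℝ) := by
      intro hcon
      have : M + 1 + t ≤ M := hM hcon
      omega
    push Not at hn
    obtain ⟨v, hv, hlt⟩ := hn
    have h3 := height_close u (ρ (M + 1 + t)) v hv
    have h4 : ∑ i, u i * hb (ρ (M + 1 + t)) i = ∑ i, u i * (bary (ρ (M + 1 + t)) i : ℝ) := rfl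
    simp only
    rw [h4]
    linarith
  have hk' : Kb hb ρ u := kb_tail (M + 1) hk
  obtain ⟨s, hs, i, e, he, a, ha, b, hb1, heq⟩ := to_face u hu
  have hk2 := kb_mul hk' hs.le
  rw [heq] at hk2
  rcases he with rfl | rfl
  · exact h1 i hf ρ hρ a ha b hb1 hk2
  · exact h2 i hf ρ hρ a ha b hb1 hk2

end H76.TP
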