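import Pool.Agent.H76.TP.Graph

/-!
Finitely many infinite components: finitely many escaping points, finitely many ends.
-/

namespace H76.TP

variable {V : Type*} {G : SimpleGraph V}

theorem fin_of_three {ι : Type*} (hf : {C : G.ConnectedComponent | C.supp.Infinite}.Finite)
    (c : ι → G.ConnectedComponent) (S : Set ι) (hc : ∀ i ∈ S, (c i).supp.Infinite)
    (h3 : ∀ i ∈ S, ∀ j ∈ S, ∀ k ∈ S, c i = c j → c i = c k → i = j ∨ i = k ∨ j = k) :
    S.Finite := by
  classical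
  have hsub : S ⊆ ⋃ C ∈ {C : G.ConnectedComponent | C.supp.Infinite}, {i | i ∈ S ∧ c i = C} := by
    intro i hi
    simp only [Set.mem_iUnion, Set.mem_setOf_eq]
    exact ⟨c i, hc i hi, hi, rfl⟩
  refine Set.Finite.subset (hf.biUnion fun C _ => ?_) hsub
  by_contra hinf
  obtain ⟨t, ht, hcard⟩ := Set.Infinite.exists_subset_card_eq hinf 3
  obtain ⟨i, j, k, hij, hik, hjk, rfl⟩ := Finset.card_eq_three.1 hcard
  have hi : i ∈ S ∧ c i = C := ht (by simp)
  have hj : j ∈ S ∧ c j = C := ht (by simp)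
  have hk : k ∈ S ∧ c k = C := ht (by simp)
  rcases h3 i hi.1 j hj.1 k hk.1 (hi.2.trans hj.2.symm) (hi.2.trans hk.2.symm) with h | h | h
  · exact hij h
  · exact hik h
  · exact hjk h

theorem reach_of_eq {u v : V} (h : G.connectedComponentMk u = G.connectedComponentMk v) :
    G.Reachable u v := SimpleGraph.ConnectedComponent.eq.1 h

/-- finitely many points of `Y` have a ray avoiding `Y` afterwards. -/
theorem escape_finite (hG : Deg2 G)
    (hf : {C : G.ConnectedComponent | C.supp.Infinite}.Finite) (Y : Set V) :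
    {y | y ∈ Y ∧ ∃ ρ, IsRay G ρ ∧ ρ 0 = y ∧ ∀ t, ρ (t + 1) ∉ Y}.Finite := by
  refine fin_of_three hf (fun y => G.connectedComponentMk y) _ ?_ ?_
  · rintro y ⟨-, ρ, hρ, rfl, -⟩
    exact hρ.infinite
  · rintro _ ⟨y₁, ρ₁, h₁, rfl, e₁⟩ _ ⟨y₂, ρ₂, h₂, rfl, e₂⟩ _ ⟨y₃, ρ₃, h₃, rfl, e₃⟩ h12 h13
    exact escape_three hG h₁ h₂ h₃ y₁ y₂ y₃ e₁ e₂ e₃ (reach_of_eq h12) (reach_of_eq h13)

/-- finitely many pairwise different ends. -/
theorem ends_finite (hG : Deg2 G) (hf : {C : G.ConnectedComponent | C.supp.Infinite}.Finite)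
    (I : Set ℕ) (r : ℕ → ℕ → V) (hr : ∀ m ∈ I, IsRay G (r m))
    (hne : ∀ m ∈ I, ∀ n ∈ I, Same (r m) (r n) → m = n) : I.Finite := by
  refine fin_of_three hf (fun m => G.connectedComponentMk (r m 0)) _ ?_ ?_
  · intro m hm
    exact (hr m hm).infinite
  · intro i hi j hj k hk h12 h13
    rcases same_of_three hG (hr i hi) (hr j hj) (hr k hk) (reach_of_eq h12)
      (reach_of_eq h13) with h | h | h
    · exact Or.inl (hne i hi j hj h)
    · exact Or.inr (Or.inl (hne i hi k hk h))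
    · exact Or.inr (Or.inr (hne j hj k hk h))

end H76.TP
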