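import Mathlib
import Pool.Agent.H76.TP.Fin

/-!
Measurability for random graphs of maximal degree two on a countable vertex set.
-/

open MeasureTheory Filter

namespace H76.TP

variable {V Ω : Type*} [MeasurableSpace Ω] {G : Ω → SimpleGraph V}

/-- there is a ray which starts with `x`, `y`. -/
def HasRay (G : SimpleGraph V) (x y : V) : Prop := ∃ ρ, IsRay G ρ ∧ ρ 0 = x ∧ ρ 1 = y

open Classical in
/-- the ray which starts with `x`, `y` (if it exists). -/
noncomputable def theRay (G : SimpleGraph V) (x y : V) : ℕ → V :=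
  if h : HasRay G x y then h.choose else fun _ => x

theorem theRay_spec {G : SimpleGraph V} {x y : V} (h : HasRay G x y) :
    IsRay G (theRay G x y) ∧ theRay G x y 0 = x ∧ theRay G x y 1 = y := by
  unfold theRay
  rw [dif_pos h]
  exact h.choose_spec

theorem theRay_eq {G : SimpleGraph V} (hG : Deg2 G) {ρ : ℕ → V} (hρ : IsRay G ρ) :
    theRay G (ρ 0) (ρ 1) = ρ := by
  have h : HasRay G (ρ 0) (ρ 1) := ⟨ρ, hρ, rfl, rfl⟩
  obtain ⟨h1, h2, h3⟩ := theRay_spec h
  exact ray_eq hG h1 hρ h2 h3

/-- reachable in exactly `n` steps. -/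
private def Stp (G : SimpleGraph V) : ℕ → V → V → Prop
  | 0, x, y => x = y
  | n + 1, x, y => ∃ z, G.Adj x z ∧ Stp G n z y

private theorem reachable_iff (G : SimpleGraph V) (x y : V) :
    G.Reachable x y ↔ ∃ n, Stp G n x y := by
  constructor
  · rintro ⟨p⟩
    induction p with
    | nil => exact ⟨0, rfl⟩
    | @cons u v w huv p ih =>
      obtain ⟨n, hn⟩ := ih
      exact ⟨n + 1, v, huv, hn⟩
  · rintro ⟨n, hn⟩
    induction n generalizing x with
    | zero =>
      have h : x = y := hn
      rw [h]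
    | succ n ih =>
      obtain ⟨z, hz, hn⟩ := hn
      exact hz.reachable.trans (ih z hn)

/-- the first `n` steps of `σ` form a path. -/
private def PathTo (G : SimpleGraph V) (σ : ℕ → V) (n : ℕ) : Prop :=
  (∀ i ≤ n, ∀ j ≤ n, σ i = σ j → i = j) ∧ ∀ t < n, G.Adj (σ t) (σ (t + 1))

private theorem PathTo.mono {G : SimpleGraph V} {σ : ℕ → V} {n m : ℕ} (h : PathTo G σ n)
    (hm : m ≤ n) : PathTo G σ m :=
  ⟨fun i hi j hj e => h.1 i (hi.trans hm) j (hj.trans hm) e, fun t ht => h.2 t (ht.trans_le hm)⟩

private theorem PathTo.congr {G : SimpleGraph V} {σ τ : ℕ → V} {n : ℕ} (h : PathTo G σ n)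
    (e : ∀ i ≤ n, σ i = τ i) : PathTo G τ n := by
  refine ⟨fun i hi j hj h' => h.1 i hi j hj ?_, fun t ht => ?_⟩
  · rw [e i hi, e j hj]
    exact h'
  · rw [← e t ht.le, ← e (t + 1) ht]
    exact h.2 t ht

private theorem IsRay.pathTo {G : SimpleGraph V} {ρ : ℕ → V} (h : IsRay G ρ) (n : ℕ) :
    PathTo G ρ n :=
  ⟨fun _ _ _ _ e => h.1 e, fun t _ => h.2 t⟩

private theorem path_agree {G : SimpleGraph V} (hG : Deg2 G) {σ τ : ℕ → V} {n : ℕ}
    (hσ : PathTo G σ n) (hτ : PathTo G τ n) (h0 : σ 0 = τ 0) (h1 : σ 1 = τ 1) :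
    ∀ t ≤ n, σ t = τ t := by
  have key : ∀ t, t + 1 ≤ n → σ t = τ t ∧ σ (t + 1) = τ (t + 1) := by
    intro t
    induction t with
    | zero => exact fun _ => ⟨h0, h1⟩
    | succ t ih =>
      intro ht
      have ih := ih (by omega)
      refine ⟨ih.2, ?_⟩
      refine next_eq hG (p := σ t) (v := σ (t + 1)) (hσ.2 t (by omega)) (hσ.2 (t + 1) (by omega))
        ?_ ?_ ?_
      · rw [ih.2]; exact hτ.2 (t + 1) (by omega)
      · intro h
        have := hσ.1 _ (by omega) _ (by omega) h
        omega
      · intro h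
        rw [ih.1] at h
        have := hτ.1 _ (by omega) _ (by omega) h
        omega
  intro t ht
  rcases t with _ | t
  · exact h0
  · exact (key t ht).2

private theorem getD_map (σ : ℕ → V) (x : V) (n i : ℕ) (hi : i ≤ n) :
    ((List.range (n + 1)).map σ).getD i x = σ i := by
  have h : i < ((List.range (n + 1)).map σ).length := by
    simp
    omega
  rw [List.getD_eq_getElem _ _ h]
  simp

private theorem hasRay_iff {G : SimpleGraph V} (hG : Deg2 G) (x y : V) :
    HasRay G x y ↔ ∀ n : ℕ, ∃ l : List V, PathTo G (fun i => l.getD i x) (n + 1) ∧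
      l.getD 0 x = x ∧ l.getD 1 x = y := by
  constructor
  · rintro ⟨ρ, hρ, h0, h1⟩ n
    refine ⟨(List.range (n + 2)).map ρ, ?_, ?_, ?_⟩
    · exact (hρ.pathTo (n + 1)).congr fun i hi => (getD_map ρ x (n + 1) i hi).symm
    · rw [getD_map ρ x (n + 1) 0 (by omega), h0]
    · rw [getD_map ρ x (n + 1) 1 (by omega), h1]
  · intro h
    choose l hl h0 h1 using h
    have agree : ∀ t n, t ≤ n → (l n).getD t x = (l t).getD t x := by
      intro t n htn
      exact path_agree hG ((hl n).mono (show t + 1 ≤ n + 1 by omega)) (hl t)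
        (by show (l n).getD 0 x = (l t).getD 0 x; rw [h0, h0])
        (by show (l n).getD 1 x = (l t).getD 1 x; rw [h1, h1]) t (by omega)
    have hp : ∀ n, PathTo G (fun t => (l t).getD t x) n := fun n =>
      ((hl n).mono (Nat.le_succ n)).congr fun i hi => agree i n hi
    refine ⟨fun t => (l t).getD t x, ⟨?_, ?_⟩, h0 0, h1 1⟩
    · intro a b hab
      exact (hp (max a b)).1 a (le_max_left _ _) b (le_max_right _ _) hab
    · intro t
      exact (hp (t + 1)).2 t (Nat.lt_succ_self t)

private theorem encard_le_iff (G : SimpleGraph V) (k : ℕ) :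
    {C : G.ConnectedComponent | C.supp.Infinite}.encard ≤ k ↔
      ∀ s : Finset V, s.card = k + 1 →
        (∀ x ∈ s, (G.connectedComponentMk x).supp.Infinite) →
        ∃ x ∈ s, ∃ y ∈ s, x ≠ y ∧ G.Reachable x y := by
  classical
  constructor
  · intro h s hs hinf
    by_contra hcon
    push Not at hcon
    have hinj : Set.InjOn (fun x => G.connectedComponentMk x) (s : Set V) := by
      intro x hx y hy hxy
      by_contra hne
      exact hcon x hx y hy hne (SimpleGraph.ConnectedComponent.eq.1 hxy)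
    have hsub : (fun x => G.connectedComponentMk x) '' (s : Set V) ⊆
        {C : G.ConnectedComponent | C.supp.Infinite} := by
      rintro _ ⟨x, hx, rfl⟩
      exact hinf x hx
    have h2 := (Set.encard_le_encard hsub).trans h
    rw [hinj.encard_image, Set.encard_coe_eq_coe_finsetCard, hs] at h2
    have h3 : k + 1 ≤ k := by exact_mod_cast h2
    omega
  · intro h
    by_contra hcon
    have h1 : ((k + 1 : ℕ) : ℕ∞) ≤ {C : G.ConnectedComponent | C.supp.Infinite}.encard := by
      have := not_le.1 hcon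
      have h' := Order.add_one_le_of_lt this
      exact_mod_cast h'
    obtain ⟨t, ht, hcard⟩ := Set.exists_subset_encard_eq h1
    have htf : t.Finite := Set.finite_of_encard_eq_coe hcard
    let o : G.ConnectedComponent → V := fun C => Quot.out C
    have ho : ∀ C : G.ConnectedComponent, G.connectedComponentMk (o C) = C := fun C =>
      Quot.out_eq C
    have hoi : Function.Injective o := by
      intro C D hCD
      rw [← ho C, ← ho D, hCD]
    obtain ⟨x, hx, y, hy, hxy, hr⟩ := h (htf.toFinset.image o) (by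
      rw [Finset.card_image_of_injective _ hoi]
      have := htf.encard_eq_coe_toFinset_card
      rw [hcard] at this
      exact_mod_cast this.symm) (by
      intro x hx
      obtain ⟨C, hC, rfl⟩ := Finset.mem_image.1 hx
      rw [ho]
      exact ht (htf.mem_toFinset.1 hC))
    obtain ⟨C, hC, rfl⟩ := Finset.mem_image.1 hx
    obtain ⟨D, hD, rfl⟩ := Finset.mem_image.1 hy
    apply hxy
    have := SimpleGraph.ConnectedComponent.eq.2 hr
    rw [ho, ho] at this
    rw [this]

variable [Countable V]

private theorem measurableSet_stp (hm : ∀ x y, MeasurableSet {ω | (G ω).Adj x y}) (n : ℕ)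
    (x y : V) : MeasurableSet {ω | Stp (G ω) n x y} := by
  induction n generalizing x with
  | zero => exact MeasurableSet.const _
  | succ n ih =>
    have e : {ω | Stp (G ω) (n + 1) x y} = ⋃ z, {ω | (G ω).Adj x z} ∩ {ω | Stp (G ω) n z y} := by
      ext ω
      simp only [Set.mem_ofPred_eq, Set.mem_iUnion, Set.mem_inter_iff]
      exact Iff.rfl
    rw [e]
    exact MeasurableSet.iUnion fun z => (hm x z).inter (ih z)

theorem measurableSet_reachable (hm : ∀ x y, MeasurableSet {ω | (G ω).Adj x y}) (x y : V) :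
    MeasurableSet {ω | (G ω).Reachable x y} := by
  have e : {ω | (G ω).Reachable x y} = ⋃ n, {ω | Stp (G ω) n x y} := by
    ext ω
    simp only [Set.mem_ofPred_eq, Set.mem_iUnion]
    exact reachable_iff _ _ _
  rw [e]
  exact MeasurableSet.iUnion fun n => measurableSet_stp hm n x y

/-- the component of `x` is infinite. -/
theorem measurableSet_infinite (hm : ∀ x y, MeasurableSet {ω | (G ω).Adj x y}) (x : V) :
    MeasurableSet {ω | ((G ω).connectedComponentMk x).supp.Infinite} := by
  classical
  have e : {ω | ((G ω).connectedComponentMk x).supp.Infinite} =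
      ⋂ s : Finset V, ⋃ y : V, {ω | y ∉ s ∧ (G ω).Reachable y x} := by
    ext ω
    simp only [Set.mem_ofPred_eq, Set.mem_iInter, Set.mem_iUnion]
    constructor
    · intro h s
      obtain ⟨y, hy, hys⟩ := h.exists_notMem_finset s
      refine ⟨y, hys, ?_⟩
      rw [SimpleGraph.ConnectedComponent.mem_supp_iff, SimpleGraph.ConnectedComponent.eq] at hy
      exact hy
    · intro h hfin
      obtain ⟨y, hy, hr⟩ := h hfin.toFinset
      apply hy
      rw [Set.Finite.mem_toFinset, SimpleGraph.ConnectedComponent.mem_supp_iff,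
        SimpleGraph.ConnectedComponent.eq]
      exact hr
  rw [e]
  refine MeasurableSet.iInter fun s => MeasurableSet.iUnion fun y => ?_
  exact (MeasurableSet.const _).inter (measurableSet_reachable hm y x)

theorem measurableSet_encard_le (hm : ∀ x y, MeasurableSet {ω | (G ω).Adj x y}) (k : ℕ) :
    MeasurableSet {ω | {C : (G ω).ConnectedComponent | C.supp.Infinite}.encard ≤ k} := by
  have e : {ω | {C : (G ω).ConnectedComponent | C.supp.Infinite}.encard ≤ k} =
      ⋂ s : Finset V, {ω | s.card = k + 1 →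
        (∀ x ∈ s, ((G ω).connectedComponentMk x).supp.Infinite) →
        ∃ x ∈ s, ∃ y ∈ s, x ≠ y ∧ (G ω).Reachable x y} := by
    ext ω
    simp only [Set.mem_ofPred_eq, Set.mem_iInter]
    exact encard_le_iff _ _
  rw [e]
  refine MeasurableSet.iInter fun s => ?_
  refine (MeasurableSet.const (s.card = k + 1)).imp ?_
  refine MeasurableSet.imp ?_ ?_
  · have : {ω | ∀ x ∈ s, ((G ω).connectedComponentMk x).supp.Infinite} =
        ⋂ x ∈ s, {ω | ((G ω).connectedComponentMk x).supp.Infinite} := by
      ext ω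
      simp
    show MeasurableSet {ω | ∀ x ∈ s, ((G ω).connectedComponentMk x).supp.Infinite}
    rw [this]
    exact Finset.measurableSet_biInter s fun x _ => measurableSet_infinite hm x
  · have : {ω | ∃ x ∈ s, ∃ y ∈ s, x ≠ y ∧ (G ω).Reachable x y} =
        ⋃ x ∈ s, ⋃ y ∈ s, ({_ω | x ≠ y} ∩ {ω | (G ω).Reachable x y}) := by
      ext ω
      simp only [Set.mem_ofPred_eq, Set.mem_iUnion, Set.mem_inter_iff, exists_prop]
    show MeasurableSet {ω | ∃ x ∈ s, ∃ y ∈ s, x ≠ y ∧ (G ω).Reachable x y}
    rw [this]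
    exact Finset.measurableSet_biUnion s fun x _ => Finset.measurableSet_biUnion s fun y _ =>
      (MeasurableSet.const _).inter (measurableSet_reachable hm x y)

theorem measurableSet_finite (hm : ∀ x y, MeasurableSet {ω | (G ω).Adj x y}) :
    MeasurableSet {ω | {C : (G ω).ConnectedComponent | C.supp.Infinite}.Finite} := by
  have e : {ω | {C : (G ω).ConnectedComponent | C.supp.Infinite}.Finite} =
      ⋃ k : ℕ, {ω | {C : (G ω).ConnectedComponent | C.supp.Infinite}.encard ≤ k} := by
    ext ω
    simp only [Set.mem_ofPred_eq, Set.mem_iUnion]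
    constructor
    · intro h
      exact ⟨_, h.encard_eq_coe_toFinset_card.le⟩
    · rintro ⟨k, hk⟩
      exact Set.finite_of_encard_le_coe hk
  rw [e]
  exact MeasurableSet.iUnion fun k => measurableSet_encard_le hm k

omit [Countable V] in
private theorem measurableSet_pathTo (hm : ∀ x y, MeasurableSet {ω | (G ω).Adj x y})
    (σ : ℕ → V) (n : ℕ) : MeasurableSet {ω | PathTo (G ω) σ n} := by
  have e : {ω | PathTo (G ω) σ n} = {_ω | ∀ i ≤ n, ∀ j ≤ n, σ i = σ j → i = j} ∩
      ⋂ t : ℕ, {ω | t < n → (G ω).Adj (σ t) (σ (t + 1))} := by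
    ext ω
    simp only [Set.mem_ofPred_eq, Set.mem_inter_iff, Set.mem_iInter]
    exact Iff.rfl
  rw [e]
  exact (MeasurableSet.const _).inter (MeasurableSet.iInter fun t =>
    (MeasurableSet.const (t < n)).imp (hm _ _))

theorem measurableSet_hasRay (hG : ∀ ω, Deg2 (G ω))
    (hm : ∀ x y, MeasurableSet {ω | (G ω).Adj x y}) (x y : V) :
    MeasurableSet {ω | HasRay (G ω) x y} := by
  have e : {ω | HasRay (G ω) x y} = ⋂ n : ℕ, ⋃ l : List V,
      ({ω | PathTo (G ω) (fun i => l.getD i x) (n + 1)} ∩
        {_ω | l.getD 0 x = x ∧ l.getD 1 x = y}) := by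
    ext ω
    simp only [Set.mem_ofPred_eq, Set.mem_iInter, Set.mem_iUnion, Set.mem_inter_iff]
    exact hasRay_iff (hG ω) x y
  rw [e]
  exact MeasurableSet.iInter fun n => MeasurableSet.iUnion fun l =>
    (measurableSet_pathTo hm _ _).inter (MeasurableSet.const _)

theorem measurableSet_theRay (hG : ∀ ω, Deg2 (G ω))
    (hm : ∀ x y, MeasurableSet {ω | (G ω).Adj x y}) (x y : V) (t : ℕ) (z : V) :
    MeasurableSet {ω | HasRay (G ω) x y ∧ theRay (G ω) x y t = z} := by
  have e : {ω | HasRay (G ω) x y ∧ theRay (G ω) x y t = z} = {ω | HasRay (G ω) x y} ∩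
      ⋃ l : List V, ({ω | PathTo (G ω) (fun i => l.getD i x) (t + 1)} ∩
        {_ω | l.getD 0 x = x ∧ l.getD 1 x = y ∧ l.getD t x = z}) := by
    ext ω
    simp only [Set.mem_ofPred_eq, Set.mem_iUnion, Set.mem_inter_iff]
    refine and_congr_right fun h => ?_
    obtain ⟨h1, h2, h3⟩ := theRay_spec h
    constructor
    · intro hz
      refine ⟨(List.range (t + 2)).map (theRay (G ω) x y), ?_, ?_, ?_, ?_⟩
      · exact (IsRay.pathTo h1 (t + 1)).congr fun i hi => (getD_map _ x (t + 1) i hi).symm
      · rw [getD_map _ x (t + 1) 0 (by omega), h2]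
      · rw [getD_map _ x (t + 1) 1 (by omega), h3]
      · rw [getD_map _ x (t + 1) t (by omega), hz]
    · rintro ⟨l, hl, h0, h1', hz⟩
      rw [← hz]
      exact path_agree (hG ω) (IsRay.pathTo h1 (t + 1)) hl (h2.trans h0.symm)
        (h3.trans h1'.symm) t (by omega)
  rw [e]
  exact (measurableSet_hasRay hG hm x y).inter (MeasurableSet.iUnion fun l =>
    (measurableSet_pathTo hm _ _).inter (MeasurableSet.const _))

end H76.TP
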