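import Mathlib

/-!
Shifts of i.i.d. families: invariance and the zero-one law.
-/

open MeasureTheory ProbabilityTheory
open scoped symmDiff ENNReal

namespace H76.TP

theorem shift_mp {I X : Type*} [AddCommGroup I] [MeasurableSpace X] (μ : Measure X)
    [IsProbabilityMeasure μ] (τ : I) :
    MeasurePreserving (fun (ω : I → X) v => ω (v + τ)) (Measure.infinitePi fun _ : I => μ)
      (Measure.infinitePi fun _ : I => μ) := by
  classical
  have hm : Measurable (fun (ω : I → X) v => ω (v + τ)) :=
    measurable_pi_iff.2 fun v => measurable_pi_apply _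
  refine ⟨hm, ?_⟩
  refine Measure.eq_infinitePi (fun _ : I => μ) ?_
  intro s t ht
  rw [Measure.map_apply hm (.pi s.countable_toSet fun i _ => ht i)]
  have e : (fun (ω : I → X) v => ω (v + τ)) ⁻¹' ((s : Set I).pi t) =
      Set.pi (↑(s.map (addRightEmbedding τ)) : Set I) (fun j => t (j - τ)) := by
    ext ω
    simp only [Set.mem_preimage, Set.mem_pi, Finset.mem_coe, Finset.mem_map,
      addRightEmbedding_apply]
    constructor
    · rintro h j ⟨i, hi, rfl⟩
      rw [add_sub_cancel_right]
      exact h i hi
    · intro h i hi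
      have := h (i + τ) ⟨i, hi, rfl⟩
      rwa [add_sub_cancel_right] at this
  rw [e, Measure.infinitePi_pi (fun _ : I => μ) (fun j _ => ht (j - τ)), Finset.prod_map]
  refine Finset.prod_congr rfl fun i _ => ?_
  rw [addRightEmbedding_apply, add_sub_cancel_right]

/-- some multiple of `τ` moves a finite set off itself. -/
private theorem exists_disjoint {I : Type*} [AddCommGroup I] (τ : I)
    (hτ : ∀ n : ℕ, n ≠ 0 → n • τ ≠ 0) (S : Finset I) :
    ∃ n : ℕ, ∀ s ∈ S, s + n • τ ∉ S := by
  classical
  have hinj : Function.Injective fun n : ℕ => n • τ := by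
    intro a b hab
    rcases lt_trichotomy a b with h | h | h
    · exfalso
      refine hτ (b - a) (by omega) ?_
      have h1 : b • τ = (b - a) • τ + a • τ := by rw [← add_nsmul, Nat.sub_add_cancel h.le]
      have h2 : a • τ = b • τ := hab
      rw [h1] at h2
      exact (left_eq_add.1 (by rw [add_comm]; exact h2))
    · exact h
    · exfalso
      refine hτ (a - b) (by omega) ?_
      have h1 : a • τ = (a - b) • τ + b • τ := by rw [← add_nsmul, Nat.sub_add_cancel h.le]
      have h2 : a • τ = b • τ := hab
      rw [h1] at h2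
      exact (add_eq_right.1 h2)
  let D : Finset I := (S ×ˢ S).image fun p => p.1 - p.2
  have hfin : {n : ℕ | n • τ ∈ D}.Finite :=
    Set.Finite.preimage hinj.injOn D.finite_toSet
  obtain ⟨n, hn⟩ := hfin.infinite_compl.nonempty
  refine ⟨n, fun s hs hs' => hn ?_⟩
  change n • τ ∈ D
  simp only [D, Finset.mem_image, Finset.mem_product]
  exact ⟨(s + n • τ, s), ⟨hs', hs⟩, by simp⟩

private theorem cylinder_indep {I X : Type*} [AddCommGroup I] [MeasurableSpace X] (μ : Measure X)
    [IsProbabilityMeasure μ] (J : Finset I) {S : Set (J → X)} (hS : MeasurableSet S) (σ : I)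
    (hσ : ∀ s ∈ J, s + σ ∉ J) :
    (Measure.infinitePi fun _ : I => μ) (MeasureTheory.cylinder (α := fun _ : I => X) J S ∩
      (fun (ω : I → X) v => ω (v + σ)) ⁻¹' (MeasureTheory.cylinder (α := fun _ : I => X) J S)) =
      (Measure.infinitePi fun _ : I => μ) (MeasureTheory.cylinder (α := fun _ : I => X) J S) *
      (Measure.infinitePi fun _ : I => μ) (MeasureTheory.cylinder (α := fun _ : I => X) J S) := by
  classical
  let K : Finset I := J.map (addRightEmbedding σ)
  have hJK : Disjoint J K := by
    rw [Finset.disjoint_left]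
    intro s hs hsK
    obtain ⟨t, ht, rfl⟩ := Finset.mem_map.1 hsK
    exact hσ t ht hs
  have hind0 : iIndepFun (fun (s : I) (ω : I → X) => ω s) (Measure.infinitePi fun _ : I => μ) :=
    iIndepFun_infinitePi (X := fun _ r => r) (fun _ => measurable_id)
  have hind := hind0.indepFun_finset J K hJK (fun s => measurable_pi_apply s)
  let r : (K → X) → (J → X) := fun f i => f ⟨(i : I) + σ,
    Finset.mem_map.2 ⟨i, i.2, rfl⟩⟩
  have hr : Measurable r := measurable_pi_iff.2 fun i => measurable_pi_apply _
  have h1 := hind.measure_inter_preimage_eq_mul S (r ⁻¹' S) hS (hr hS)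
  have e1 : (fun (e : I → X) (i : J) => e i) ⁻¹' S =
      MeasureTheory.cylinder (α := fun _ : I => X) J S := rfl
  have e2 : (fun (e : I → X) (i : K) => e i) ⁻¹' (r ⁻¹' S) =
      (fun (ω : I → X) v => ω (v + σ)) ⁻¹'
        (MeasureTheory.cylinder (α := fun _ : I => X) J S) := rfl
  rw [e1, e2] at h1
  rw [h1]
  congr 1
  exact (shift_mp μ σ).measure_preimage (hS.cylinder).nullMeasurableSet

theorem zero_one {I X : Type*} [AddCommGroup I] [Countable I] [MeasurableSpace X]
    (μ : Measure X) [IsProbabilityMeasure μ] (τ : I) (hτ : ∀ n : ℕ, n ≠ 0 → n • τ ≠ 0)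
    (A : Set (I → X)) (hA : MeasurableSet A)
    (hinv : ∀ ω : I → X, (fun v => ω (v + τ)) ∈ A ↔ ω ∈ A) :
    Measure.infinitePi (fun _ : I => μ) A = 0 ∨ Measure.infinitePi (fun _ : I => μ) A = 1 := by
  classical
  set P := Measure.infinitePi (fun _ : I => μ) with hP
  -- invariance under all multiples
  have hinvn : ∀ n : ℕ, (fun (ω : I → X) v => ω (v + n • τ)) ⁻¹' A = A := by
    intro n
    induction n with
    | zero => ext ω; simp
    | succ n ih =>
      ext ω
      have h1 := hinv fun v => ω (v + n • τ)
      have h2 : (fun v => (fun w => ω (w + n • τ)) (v + τ)) = fun v => ω (v + (n + 1) • τ) := by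
        funext v
        change ω (v + τ + n • τ) = ω (v + (n + 1) • τ)
        congr 1
        rw [succ_nsmul]
        abel
      rw [h2] at h1
      exact h1.trans (Set.ext_iff.1 ih ω)
  have hdense := Measure.MeasureDense.of_generateFrom_isSetAlgebra_finite P
    (𝒜 := measurableCylinders (fun _ : I => X))
    isSetAlgebra_measurableCylinders generateFrom_measurableCylinders.symm
  have key : ∀ δ : ℝ, 0 < δ → |P.real A - P.real A * P.real A| ≤ 4 * δ := by
    intro δ hδ
    obtain ⟨B, hB, hBA⟩ := hdense.approx A hA (measure_ne_top _ _) δ hδ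
    obtain ⟨J, S, hS, rfl⟩ := (mem_measurableCylinders _).1 hB
    obtain ⟨n, hn⟩ := exists_disjoint τ hτ J
    have hind := cylinder_indep μ J hS (n • τ) hn
    set sh : (I → X) → (I → X) := fun ω v => ω (v + n • τ) with hsh
    set B : Set (I → X) := MeasureTheory.cylinder (α := fun _ : I => X) J S with hBdef
    have hBm : MeasurableSet B := hS.cylinder
    have hδ' : P.real (A ∆ B) < δ := by
      rw [Measure.real]
      exact (ENNReal.toReal_lt_of_lt_ofReal hBA)
    have hshm : MeasurePreserving sh P P := shift_mp μ (n • τ)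
    have hAs : P.real ((sh ⁻¹' A) ∆ (sh ⁻¹' B)) < δ := by
      rw [← Set.preimage_symmDiff, Measure.real]
      have := hshm.measure_preimage (hA.symmDiff hBm).nullMeasurableSet
      rw [this]
      exact hδ'
    have h1 : P.real A = P.real (A ∩ sh ⁻¹' A) := by
      rw [hsh, hinvn n, Set.inter_self]
    have h2 : P.real (B ∩ sh ⁻¹' B) = P.real B * P.real B := by
      simp only [Measure.real]
      rw [← ENNReal.toReal_mul, ← hind]
    have h3 : |P.real A - P.real B| ≤ P.real (A ∆ B) :=
      abs_measureReal_sub_le_measureReal_symmDiff hA.nullMeasurableSet hBm.nullMeasurableSet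
    have h4 : |P.real (A ∩ sh ⁻¹' A) - P.real (B ∩ sh ⁻¹' B)| ≤
        P.real (A ∆ B) + P.real ((sh ⁻¹' A) ∆ (sh ⁻¹' B)) := by
      refine (abs_measureReal_sub_le_measureReal_symmDiff
        (hA.inter (hshm.measurable hA)).nullMeasurableSet
        (hBm.inter (hshm.measurable hBm)).nullMeasurableSet).trans ?_
      refine (measureReal_mono ?_).trans (measureReal_union_le _ _)
      intro x hx
      simp only [Set.mem_symmDiff, Set.mem_inter_iff, Set.mem_union] at hx ⊢
      tauto
    have hA01 : 0 ≤ P.real A ∧ P.real A ≤ 1 := ⟨measureReal_nonneg, measureReal_le_one⟩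
    have hB01 : 0 ≤ P.real B ∧ P.real B ≤ 1 := ⟨measureReal_nonneg, measureReal_le_one⟩
    rw [h2, ← h1] at h4
    rw [abs_le] at h3 h4 ⊢
    constructor <;> nlinarith [h3.1, h3.2, h4.1, h4.2, hA01.1, hA01.2, hB01.1, hB01.2]
  have h0 : P.real A - P.real A * P.real A = 0 := by
    by_contra hne
    have hpos : 0 < |P.real A - P.real A * P.real A| := abs_pos.2 hne
    have := key (|P.real A - P.real A * P.real A| / 8) (by positivity)
    linarith
  have h1 : P.real A * (1 - P.real A) = 0 := by linarith
  rcases mul_eq_zero.1 h1 with h | h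
  · left
    exact (measureReal_eq_zero_iff).1 h
  · right
    have h' : P.real A = 1 := by linarith
    rw [Measure.real] at h'
    have := (ENNReal.toReal_eq_one_iff _).1 h'
    exact this

end H76.TP
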