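import Pool.Agent.H76.TP.Trans
import Pool.Agent.H76.TP.Meas
import Pool.Agent.H76.TP.ZeroOne

/-!
The number of infinite tricolor paths is almost surely constant.
-/

open MeasureTheory

namespace H76.TP

theorem encard_le_of_iso {V W : Type*} {G : SimpleGraph V} {H : SimpleGraph W} (φ : G ≃g H) :
    {C : G.ConnectedComponent | C.supp.Infinite}.encard ≤
      {C : H.ConnectedComponent | C.supp.Infinite}.encard := by
  rw [← (φ.connectedComponentEquiv.injective).encard_image]
  refine Set.encard_le_encard ?_
  rintro _ ⟨C, hC, rfl⟩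
  induction C using SimpleGraph.ConnectedComponent.ind with
  | _ v =>
    have hC' : (G.connectedComponentMk v).supp.Infinite := hC
    show (φ.connectedComponentEquiv (G.connectedComponentMk v)).supp.Infinite
    refine (hC'.image (f := φ) φ.injective.injOn).mono ?_
    rintro _ ⟨w, hw, rfl⟩
    rw [SimpleGraph.ConnectedComponent.mem_supp_iff, SimpleGraph.ConnectedComponent.eq] at hw
    rw [SimpleGraph.ConnectedComponent.mem_supp_iff]
    show H.connectedComponentMk (φ w) = H.connectedComponentMk (φ v)
    rw [SimpleGraph.ConnectedComponent.eq]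
    exact φ.reachable_iff.2 hw

theorem encard_iso {V W : Type*} {G : SimpleGraph V} {H : SimpleGraph W} (φ : G ≃g H) :
    {C : G.ConnectedComponent | C.supp.Infinite}.encard =
      {C : H.ConnectedComponent | C.supp.Infinite}.encard :=
  le_antisymm (encard_le_of_iso φ) (encard_le_of_iso φ.symm)

/-- the translation as an isomorphism of tricolor graphs. -/
def isoSh (g : bcc) (ω : bcc → Fin 3) : tri (sh g ω) ≃g tri ω where
  toEquiv := AddAction.toPerm g
  map_rel_iff' := (adj_sh g ω _ _).symm

theorem encard_sh (g : bcc) (ω : bcc → Fin 3) :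
    (infinitePaths (sh g ω)).encard = (infinitePaths ω).encard :=
  encard_iso (isoSh g ω)

instance law_prob (μ : Measure (Fin 3)) [IsProbabilityMeasure μ] :
    IsProbabilityMeasure (law μ) := by
  unfold law
  infer_instance

theorem sh_mp (μ : Measure (Fin 3)) [IsProbabilityMeasure μ] (g : bcc) :
    MeasurePreserving (sh g) (law μ) (law μ) := shift_mp μ g

/-- a nonzero vector of the lattice. -/
def e0 : bcc := ⟨fun i => if i = 0 then 2 else 0, by
  intro i j
  by_cases hi : i = 0 <;> by_cases hj : j = 0 <;> simp [hi, hj]⟩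

theorem e0_ne (n : ℕ) (hn : n ≠ 0) : n • e0 ≠ 0 := by
  intro h
  have : (n • e0).1 0 = 0 := by rw [h]; rfl
  have h2 : (n • e0).1 0 = n * 2 := by
    show n • ((fun i : Fin 3 => if i = 0 then (2 : ℤ) else 0) 0) = _
    simp
  rw [h2] at this
  omega

theorem const_count (μ : Measure (Fin 3)) [IsProbabilityMeasure μ] :
    ∃ k : ℕ∞, ∀ᵐ ω ∂law μ, (infinitePaths ω).encard = k := by
  classical
  have hz : ∀ k : ℕ, law μ {ω | (infinitePaths ω).encard ≤ k} = 0 ∨
      law μ {ω | (infinitePaths ω).encard ≤ k} = 1 := by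
    intro k
    refine zero_one μ e0 e0_ne _ (measurableSet_encard_le measurableSet_adj k) ?_
    intro ω
    show (infinitePaths (sh e0 ω)).encard ≤ k ↔ (infinitePaths ω).encard ≤ k
    rw [encard_sh]
  by_cases hex : ∃ k : ℕ, law μ {ω | (infinitePaths ω).encard ≤ k} = 1
  · refine ⟨((Nat.find hex : ℕ) : ℕ∞), ?_⟩
    have h1 : ∀ᵐ ω ∂law μ, (infinitePaths ω).encard ≤ (Nat.find hex : ℕ) := by
      have hs := Nat.find_spec hex
      have hm := measurableSet_encard_le (G := tri) measurableSet_adj (Nat.find hex)
      exact (mem_ae_iff_prob_eq_one hm).2 hs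
    have h2 : ∀ᵐ ω ∂law μ, ∀ j : ℕ, j < Nat.find hex → ¬ (infinitePaths ω).encard ≤ j := by
      rw [ae_all_iff]
      intro j
      by_cases hj : j < Nat.find hex
      · have h0 := (hz j).resolve_right (Nat.find_min hex hj)
        have : ∀ᵐ ω ∂law μ, ¬ (infinitePaths ω).encard ≤ j := by
          rw [ae_iff]
          simpa using h0
        filter_upwards [this] with ω h _
        exact h
      · exact Filter.Eventually.of_forall fun ω h => absurd h hj
    filter_upwards [h1, h2] with ω h1 h2
    obtain ⟨n, hn⟩ := ENat.ne_top_iff_exists.1 (ne_top_of_le_ne_top (ENat.natCast_ne_top _) h1)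
    rw [← hn] at h1 h2 ⊢
    have h1' : n ≤ Nat.find hex := by exact_mod_cast h1
    rcases h1'.lt_or_eq with h | h
    · exact absurd le_rfl (h2 n h)
    · rw [h]
  · push Not at hex
    refine ⟨⊤, ?_⟩
    have : ∀ᵐ ω ∂law μ, ∀ k : ℕ, ¬ (infinitePaths ω).encard ≤ k := by
      rw [ae_all_iff]
      intro k
      rw [ae_iff]
      simpa using (hz k).resolve_right (hex k)
    filter_upwards [this] with ω h
    by_contra hne
    obtain ⟨n, hn⟩ := ENat.ne_top_iff_exists.1 hne
    exact h n hn.symm.le

end H76.TP
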