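import Mathlib

/-!
Rays in graphs of maximal degree two: a component has at most two ends.
-/

namespace H76.TP

variable {V : Type*} {G : SimpleGraph V}

/-- every vertex has at most two neighbours. -/
def Deg2 (G : SimpleGraph V) : Prop :=
  ∀ v a b c, G.Adj v a → G.Adj v b → G.Adj v c → a = b ∨ a = c ∨ b = c

/-- a ray: an infinite injective sequence of successively adjacent vertices. -/
def IsRay (G : SimpleGraph V) (ρ : ℕ → V) : Prop :=
  Function.Injective ρ ∧ ∀ t, G.Adj (ρ t) (ρ (t + 1))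

theorem IsRay.tail {ρ : ℕ → V} (h : IsRay G ρ) (s : ℕ) : IsRay G fun t => ρ (s + t) :=
  ⟨fun a b hab => by have := h.1 hab; omega, fun t => h.2 (s + t)⟩

/-- the next vertex on a ray is determined. -/
theorem next_eq (hG : Deg2 G) {p v a b : V} (hp : G.Adj p v) (ha : G.Adj v a) (hb : G.Adj v b)
    (hpa : p ≠ a) (hpb : p ≠ b) : a = b := by
  rcases hG v p a b hp.symm ha hb with h | h | h
  · exact absurd h hpa
  · exact absurd h hpb
  · exact h

theorem ray_eq (hG : Deg2 G) {ρ σ : ℕ → V} (hρ : IsRay G ρ) (hσ : IsRay G σ)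
    (h0 : ρ 0 = σ 0) (h1 : ρ 1 = σ 1) : ρ = σ := by
  have key : ∀ t, ρ t = σ t ∧ ρ (t + 1) = σ (t + 1) := by
    intro t
    induction t with
    | zero => exact ⟨h0, h1⟩
    | succ t ih =>
      refine ⟨ih.2, ?_⟩
      refine next_eq hG (p := ρ t) (v := ρ (t + 1)) (hρ.2 t) (hρ.2 (t + 1)) ?_ ?_ ?_
      · rw [ih.2]; exact hσ.2 (t + 1)
      · intro h
        have := hρ.1 h
        omega
      · intro h
        rw [ih.1] at h
        have := hσ.1 h
        omega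
  funext t
  exact (key t).1

/-- a vertex adjacent to a ray vertex which is not the first one lies on the ray. -/
theorem mem_of_adj (hG : Deg2 G) {ρ : ℕ → V} (hρ : IsRay G ρ) {j : ℕ} {w : V}
    (hw : G.Adj (ρ (j + 1)) w) : w = ρ j ∨ w = ρ (j + 2) := by
  rcases hG (ρ (j + 1)) w (ρ j) (ρ (j + 2)) hw (hρ.2 j).symm (hρ.2 (j + 1)) with h | h | h
  · exact Or.inl h
  · exact Or.inr h
  · have := hρ.1 h
    omega

/-- prepend a vertex. -/
def cons (w : V) (ρ : ℕ → V) : ℕ → V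
  | 0 => w
  | t + 1 => ρ t

theorem cons_isRay {ρ : ℕ → V} (hρ : IsRay G ρ) {w : V} (hw : G.Adj w (ρ 0))
    (hn : w ∉ Set.range ρ) : IsRay G (cons w ρ) := by
  refine ⟨?_, ?_⟩
  · rintro (_ | a) (_ | b) h
    · rfl
    · exact absurd ⟨b, h.symm⟩ hn
    · exact absurd ⟨a, h⟩ hn
    · rw [hρ.1 h]
  · rintro (_ | t)
    · exact hw
    · exact hρ.2 t

/-- from every vertex of the component of a ray there is a ray with the same tail. -/
theorem exists_ray (hG : Deg2 G) {ρ : ℕ → V} (hρ : IsRay G ρ) {w : V}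
    (hw : G.Reachable (ρ 0) w) :
    ∃ σ a b, IsRay G σ ∧ σ 0 = w ∧ ∀ t, σ (a + t) = ρ (b + t) := by
  obtain ⟨p⟩ := hw
  have key : ∀ (u w : V) (p : G.Walk u w), (∃ σ a b, IsRay G σ ∧ σ 0 = u ∧
      ∀ t, σ (a + t) = ρ (b + t)) → ∃ σ a b, IsRay G σ ∧ σ 0 = w ∧
      ∀ t, σ (a + t) = ρ (b + t) := by
    intro u w p
    induction p with
    | nil => exact fun h => h
    | @cons u v w huv p ih =>
      rintro ⟨σ, a, b, hσ, h0, ht⟩
      apply ih
      by_cases h1 : v = σ 1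
      · refine ⟨fun t => σ (1 + t), a, b + 1, hσ.tail 1, h1.symm, fun t => ?_⟩
        have := ht (t + 1)
        show σ (1 + (a + t)) = ρ (b + 1 + t)
        rw [show 1 + (a + t) = a + (t + 1) by omega, this]
        congr 1
        omega
      · have hn : v ∉ Set.range σ := by
          rintro ⟨i, hi⟩
          rcases i with _ | i
          · rw [h0] at hi
            exact huv.ne hi
          · have hadj : G.Adj (σ (i + 1)) (σ 0) := by
              rw [hi, h0]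
              exact huv.symm
            rcases mem_of_adj hG hσ hadj with h | h
            · have := hσ.1 h
              apply h1
              rw [← hi, ← this]
            · have := hσ.1 h
              omega
        refine ⟨cons v σ, a + 1, b, cons_isRay hσ (by rw [h0]; exact huv.symm) hn, rfl,
          fun t => ?_⟩
        rw [show a + 1 + t = (a + t) + 1 by omega]
        exact ht t
  exact key _ _ p ⟨ρ, 0, 0, hρ, rfl, fun t => rfl⟩

/-- two rays have a common tail. -/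
def Same (ρ σ : ℕ → V) : Prop := ∃ a b, ∀ t, ρ (a + t) = σ (b + t)

theorem Same.symm {ρ σ : ℕ → V} (h : Same ρ σ) : Same σ ρ := by
  obtain ⟨a, b, h⟩ := h
  exact ⟨b, a, fun t => (h t).symm⟩

theorem Same.trans {ρ σ κ : ℕ → V} (h : Same ρ σ) (h' : Same σ κ) : Same ρ κ := by
  obtain ⟨a, b, h⟩ := h
  obtain ⟨c, d, h'⟩ := h'
  refine ⟨a + c, d + b, fun t => ?_⟩
  have h1 := h (c + t)
  have h2 := h' (b + t)
  rw [show a + c + t = a + (c + t) by omega, h1, show b + (c + t) = c + (b + t) by omega, h2]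
  congr 1
  omega

/-- a component has at most two ends. -/
theorem same_of_three (hG : Deg2 G) {ρ₁ ρ₂ ρ₃ : ℕ → V} (h₁ : IsRay G ρ₁) (h₂ : IsRay G ρ₂)
    (h₃ : IsRay G ρ₃) (h12 : G.Reachable (ρ₁ 0) (ρ₂ 0)) (h13 : G.Reachable (ρ₁ 0) (ρ₃ 0)) :
    Same ρ₁ ρ₂ ∨ Same ρ₁ ρ₃ ∨ Same ρ₂ ρ₃ := by
  obtain ⟨σ₂, a₂, b₂, hσ₂, h02, ht2⟩ := exists_ray hG h₂ h12.symm
  obtain ⟨σ₃, a₃, b₃, hσ₃, h03, ht3⟩ := exists_ray hG h₃ h13.symm
  have s2 : Same σ₂ ρ₂ := ⟨a₂, b₂, ht2⟩
  have s3 : Same σ₃ ρ₃ := ⟨a₃, b₃, ht3⟩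
  have e2 : G.Adj (ρ₁ 0) (σ₂ 1) := by rw [← h02]; exact hσ₂.2 0
  have e3 : G.Adj (ρ₁ 0) (σ₃ 1) := by rw [← h03]; exact hσ₃.2 0
  rcases hG (ρ₁ 0) (ρ₁ 1) (σ₂ 1) (σ₃ 1) (h₁.2 0) e2 e3 with h | h | h
  · left
    rw [ray_eq hG h₁ hσ₂ h02.symm h]
    exact s2
  · right; left
    rw [ray_eq hG h₁ hσ₃ h03.symm h]
    exact s3
  · right; right
    have := ray_eq hG hσ₂ hσ₃ (h02.trans h03.symm) h
    rw [← this] at s3
    exact s2.symm.trans s3

/-- two rays with a common tail: one contains the starting point of the other. -/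
theorem start_mem (hG : Deg2 G) {ρ σ : ℕ → V} (hρ : IsRay G ρ) (hσ : IsRay G σ)
    (h : Same ρ σ) : (∃ b, ρ 0 = σ b) ∨ ∃ a, σ 0 = ρ a := by
  obtain ⟨a, b, h⟩ := h
  induction a generalizing b with
  | zero => exact Or.inl ⟨b, by simpa using h 0⟩
  | succ a ih =>
    rcases b with _ | b
    · exact Or.inr ⟨a + 1, by simpa using (h 0).symm⟩
    · refine ih b fun t => ?_
      rcases t with _ | t
      · have e0 := h 0
        have e1 := h 1
        simp only [add_zero] at e0 ⊢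
        refine next_eq hG (p := ρ (a + 1 + 1)) (v := ρ (a + 1)) (hρ.2 (a + 1)).symm
          (hρ.2 a).symm ?_ ?_ ?_
        · rw [e0]
          exact (hσ.2 b).symm
        · intro hh
          have := hρ.1 hh
          omega
        · intro hh
          rw [e1] at hh
          have := hσ.1 hh
          omega
      · have := h t
        rw [show a + (t + 1) = a + 1 + t by omega, this]
        congr 1
        omega

/-- in a component at most two points of `Y` have a ray which avoids `Y` afterwards. -/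
theorem escape_three (hG : Deg2 G) {Y : Set V} {ρ₁ ρ₂ ρ₃ : ℕ → V} (h₁ : IsRay G ρ₁)
    (h₂ : IsRay G ρ₂) (h₃ : IsRay G ρ₃) (y₁ : ρ₁ 0 ∈ Y) (y₂ : ρ₂ 0 ∈ Y) (y₃ : ρ₃ 0 ∈ Y)
    (e₁ : ∀ t, ρ₁ (t + 1) ∉ Y) (e₂ : ∀ t, ρ₂ (t + 1) ∉ Y) (e₃ : ∀ t, ρ₃ (t + 1) ∉ Y)
    (h12 : G.Reachable (ρ₁ 0) (ρ₂ 0)) (h13 : G.Reachable (ρ₁ 0) (ρ₃ 0)) :
    ρ₁ 0 = ρ₂ 0 ∨ ρ₁ 0 = ρ₃ 0 ∨ ρ₂ 0 = ρ₃ 0 := by
  have key : ∀ {ρ σ : ℕ → V}, IsRay G ρ → IsRay G σ → ρ 0 ∈ Y → σ 0 ∈ Y →
      (∀ t, ρ (t + 1) ∉ Y) → (∀ t, σ (t + 1) ∉ Y) → Same ρ σ → ρ 0 = σ 0 := by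
    intro ρ σ hρ hσ yρ yσ eρ eσ hs
    rcases start_mem hG hρ hσ hs with ⟨b, hb⟩ | ⟨a, ha⟩
    · rcases b with _ | b
      · exact hb
      · exact absurd (hb ▸ yρ) (eσ b)
    · rcases a with _ | a
      · exact ha.symm
      · exact absurd (ha ▸ yσ) (eρ a)
  rcases same_of_three hG h₁ h₂ h₃ h12 h13 with h | h | h
  · exact Or.inl (key h₁ h₂ y₁ y₂ e₁ e₂ h)
  · exact Or.inr (Or.inl (key h₁ h₃ y₁ y₃ e₁ e₃ h))
  · exact Or.inr (Or.inr (key h₂ h₃ y₂ y₃ e₂ e₃ h))

/-- the component of the starting point of a ray is infinite. -/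
theorem IsRay.reachable {ρ : ℕ → V} (h : IsRay G ρ) (t : ℕ) : G.Reachable (ρ 0) (ρ t) := by
  induction t with
  | zero => exact SimpleGraph.Reachable.refl _
  | succ t ih => exact ih.trans (h.2 t).reachable

theorem IsRay.infinite {ρ : ℕ → V} (h : IsRay G ρ) :
    (G.connectedComponentMk (ρ 0)).supp.Infinite := by
  refine (Set.infinite_range_of_injective h.1).mono ?_
  rintro _ ⟨t, rfl⟩
  rw [SimpleGraph.ConnectedComponent.mem_supp_iff, SimpleGraph.ConnectedComponent.eq]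
  exact (h.reachable t).symm

end H76.TP
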