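import Mathlib
import Pool.Agent.H76.TP.Graph

/-!
# Tricolor percolation on the body centred cubic lattice (MP_5e745b_pr): definitions

Cells of the tessellation are indexed by the points of the lattice; edges of the tessellation are
the triples and vertices of the tessellation the quadruples of mutually adjacent cells.
-/

open MeasureTheory

namespace H76.TP

/-- The body centred cubic lattice `2ℤ³ ∪ (2ℤ³ + (1,1,1))`: the points of `ℤ³` whose three
coordinates have the same parity. -/
def bcc : AddSubgroup (Fin 3 → ℤ) where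
  carrier := {v | ∀ i j, (2 : ℤ) ∣ v i - v j}
  zero_mem' := by
    intro i j
    simp
  add_mem' := by
    intro a b ha hb i j
    have := dvd_add (ha i j) (hb i j)
    simp only [Pi.add_apply]
    rwa [add_sub_add_comm]
  neg_mem' := by
    intro a ha i j
    have := ha j i
    simp only [Pi.neg_apply]
    rwa [neg_sub_neg]

/-- The cells of the tessellation, indexed by the points of the lattice. -/
abbrev Cell : Type := bcc

/-- Adjacent cells: the difference is `(±2,0,0)`, `(0,±2,0)`, `(0,0,±2)` or `(±1,±1,±1)`. -/
def Near (v w : Cell) : Prop :=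
  (∃ i, |v.1 i - w.1 i| = 2 ∧ ∀ j, j ≠ i → v.1 j = w.1 j) ∨ ∀ i, |v.1 i - w.1 i| = 1

/-- The members of `S` are mutually adjacent cells. -/
def Mutual (S : Finset Cell) : Prop := ∀ v ∈ S, ∀ w ∈ S, v ≠ w → Near v w

/-- The vertices of the tessellation: quadruples of mutually adjacent cells. -/
abbrev Vertex := {Q : Finset Cell // Q.card = 4 ∧ Mutual Q}

/-- All three colours occur in `S`. -/
def AllColours (ω : Cell → Fin 3) (S : Finset Cell) : Prop := ∀ c, ∃ v ∈ S, ω v = c

/-- The graph of the tricolor edges of the colouring `ω`: two vertices of the tessellation are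
joined if they are the ends of a tricolor edge, that is, if they contain a triple `T` of mutually
adjacent cells of all three colours. -/
def tri (ω : Cell → Fin 3) : SimpleGraph Vertex where
  Adj Q R := Q ≠ R ∧ ∃ T : Finset Cell, T.card = 3 ∧ Mutual T ∧ T ⊆ Q.1 ∧ T ⊆ R.1 ∧
    AllColours ω T
  symm := ⟨by
    rintro Q R ⟨h, T, h3, hm, hQ, hR, hc⟩
    exact ⟨h.symm, T, h3, hm, hR, hQ, hc⟩⟩
  loopless := ⟨fun Q h => h.1 rfl⟩

/-- The infinite tricolor paths of `ω`: the infinite components of the graph of tricolor edges. -/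
def infinitePaths (ω : Cell → Fin 3) : Set (tri ω).ConnectedComponent :=
  {C | C.supp.Infinite}

/-- The law of the colouring: independent colours of law `μ`. -/
noncomputable def law (μ : Measure (Fin 3)) : Measure (Cell → Fin 3) :=
  Measure.infinitePi fun _ => μ

/-- The lattice vector `m₁ e₁ + … + m_d e_d`. -/
def comb {d : ℕ} (e : Fin d → Cell) (m : Fin d → ℤ) : Cell := ∑ i, m i • e i

/-- The vertex `R` is the translate of the vertex `Q` by the lattice vector `g`. -/
def Translate (Q R : Vertex) (g : Cell) : Prop := ∀ v, v ∈ Q.1 ↔ v + g ∈ R.1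

/-- The colours on `W + g` are those on `W`. -/
def SameColours (ω : Cell → Fin 3) (W : Finset Cell) (g : Cell) : Prop := ∀ v ∈ W, ω (v + g) = ω v

/-- The `m` in `[-N, N]^d` such that the translate of `ρ 0` by `m.e` lies on `ρ` and the colours
on `W + m.e` are those on `W`. -/
def returns (ω : Cell → Fin 3) (ρ : ℕ → Vertex) (W : Finset Cell) {d : ℕ} (e : Fin d → Cell)
    (N : ℕ) : Set (Fin d → ℤ) :=
  {m | (∀ i, |m i| ≤ N) ∧ (∃ t, Translate (ρ 0) (ρ t) (comb e m)) ∧ SameColours ω W (comb e m)}

end H76.TP
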