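import Pool.Agent.H76.TP.Lat

/-!
The tricolor graph has maximal degree two.
-/

open MeasureTheory

namespace H76.TP

theorem injOn_of_allColours {ω : bcc → Fin 3} {T : Finset bcc} (h3 : T.card = 3)
    (hc : AllColours ω T) : Set.InjOn ω (T : Set bcc) := by
  refine Finset.injOn_of_surjOn_of_card_le ω (t := Finset.univ) (fun x _ => by simp) ?_ ?_
  · intro c _
    obtain ⟨v, hv, rfl⟩ := hc c
    exact ⟨v, hv, rfl⟩
  · rw [h3]
    rfl

/-- the triple misses exactly one element of the quadruple. -/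
theorem missing {Q T : Finset bcc} (hQ : Q.card = 4) (hT : T.card = 3) (h : T ⊆ Q) :
    ∃ m ∈ Q, m ∉ T ∧ ∀ v ∈ Q, v ≠ m → v ∈ T := by
  classical
  obtain ⟨m, hm, rfl⟩ := Finset.exists_eq_insert_iff.2 ⟨h, by rw [hQ, hT]⟩
  refine ⟨m, Finset.mem_insert_self _ _, hm, fun v hv hne => ?_⟩
  rcases Finset.mem_insert.1 hv with h | h
  · exact absurd h hne
  · exact h

theorem triples {ω : bcc → Fin 3} {Q A B C : Finset bcc} (hQ : Q.card = 4) (hA : A.card = 3)
    (hB : B.card = 3) (hC : C.card = 3) (sA : A ⊆ Q) (sB : B ⊆ Q) (sC : C ⊆ Q)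
    (cA : AllColours ω A) (cB : AllColours ω B) (cC : AllColours ω C) :
    A = B ∨ A = C ∨ B = C := by
  obtain ⟨a, haQ, haA, ha⟩ := missing hQ hA sA
  obtain ⟨b, hbQ, hbB, hb⟩ := missing hQ hB sB
  obtain ⟨c, hcQ, hcC, hc⟩ := missing hQ hC sC
  have eq_of : ∀ {A B : Finset bcc} {a b : bcc}, A.card = 3 → B.card = 3 → A ⊆ Q → B ⊆ Q →
      a ∉ A → (∀ v ∈ Q, v ≠ b → v ∈ B) → a = b → A = B := by
    intro A B a b hA hB sA sB haA hb hab
    apply Finset.eq_of_subset_of_card_le
    · intro v hv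
      apply hb v (sA hv)
      rintro rfl
      exact haA (hab ▸ hv)
    · rw [hA, hB]
  by_cases hab : a = b
  · exact Or.inl (eq_of hA hB sA sB haA hb hab)
  by_cases hac : a = c
  · exact Or.inr (Or.inl (eq_of hA hC sA sC haA hc hac))
  by_cases hbc : b = c
  · exact Or.inr (Or.inr (eq_of hB hC sB sC hbB hc hbc))
  exfalso
  have hinj : Set.InjOn ω (Q : Set bcc) := by
    intro u hu v hv huv
    by_contra hne
    have hu' : u ∈ Q := hu
    have hv' : v ∈ Q := hv
    by_cases h1 : u = a ∨ v = a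
    · by_cases h2 : u = b ∨ v = b
      · have h3 : ¬ (u = c ∨ v = c) := by
          rintro (h | h)
          · rcases h1 with h1 | h1
            · exact hac (h1.symm.trans h)
            · rcases h2 with h2 | h2
              · exact hbc (h2.symm.trans h)
              · exact hab (h1.symm.trans h2)
          · rcases h1 with h1 | h1
            · rcases h2 with h2 | h2
              · exact hab (h1.symm.trans h2)
              · exact hbc (h2.symm.trans h)
            · exact hac (h1.symm.trans h)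
        exact hne (injOn_of_allColours hC cC (hc u hu' fun h => h3 (Or.inl h))
          (hc v hv' fun h => h3 (Or.inr h)) huv)
      · exact hne (injOn_of_allColours hB cB (hb u hu' fun h => h2 (Or.inl h))
          (hb v hv' fun h => h2 (Or.inr h)) huv)
    · exact hne (injOn_of_allColours hA cA (ha u hu' fun h => h1 (Or.inl h))
        (ha v hv' fun h => h1 (Or.inr h)) huv)
  have := Finset.card_le_card_of_injOn (t := Finset.univ) ω (fun x _ => by simp) hinj
  rw [hQ] at this
  simp at this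

theorem near_symm {v w : bcc} (h : Near v w) : Near w v := by
  rcases h with ⟨i, hi, hj⟩ | h
  · exact Or.inl ⟨i, by rw [abs_sub_comm]; exact hi, fun j hji => (hj j hji).symm⟩
  · exact Or.inr fun i => by rw [abs_sub_comm]; exact h i

/-- a triple of mutually adjacent cells lies in at most two quadruples. -/
theorem quadruples {T A B C : Finset bcc} (hT : T.card = 3) (hA : A.card = 4) (hB : B.card = 4)
    (hC : C.card = 4) (mA : Mutual A) (mB : Mutual B) (mC : Mutual C) (sA : T ⊆ A)
    (sB : T ⊆ B) (sC : T ⊆ C) : A = B ∨ A = C ∨ B = C := by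
  classical
  obtain ⟨a, ha, rfl⟩ := Finset.exists_eq_insert_iff.2 ⟨sA, by rw [hA, hT]⟩
  obtain ⟨b, hb, rfl⟩ := Finset.exists_eq_insert_iff.2 ⟨sB, by rw [hB, hT]⟩
  obtain ⟨c, hc, rfl⟩ := Finset.exists_eq_insert_iff.2 ⟨sC, by rw [hC, hT]⟩
  obtain ⟨x, y, z, hxy, hxz, hyz, rfl⟩ := Finset.card_eq_three.1 hT
  have near_of : ∀ {a : bcc}, Mutual (insert a {x, y, z}) → a ∉ ({x, y, z} : Finset bcc) →
      Near a x ∧ Near a y ∧ Near a z := by
    intro a m ha
    simp only [Finset.mem_insert, Finset.mem_singleton, not_or] at ha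
    refine ⟨m a (by simp) x (by simp) ha.1, m a (by simp) y (by simp) ha.2.1,
      m a (by simp) z (by simp) ha.2.2⟩
  obtain ⟨a1, a2, a3⟩ := near_of mA ha
  obtain ⟨b1, b2, b3⟩ := near_of mB hb
  obtain ⟨c1, c2, c3⟩ := near_of mC hc
  have hyx : Near y x := mA y (by simp) x (by simp) (Ne.symm hxy)
  have hzx : Near z x := mA z (by simp) x (by simp) (Ne.symm hxz)
  have hyz' : Near y z := mA y (by simp) z (by simp) hyz
  rcases two_completions hyx hzx hyz' a1 a2 a3 b1 b2 b3 c1 c2 c3 with h | h | h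
  · exact Or.inl (by rw [h])
  · exact Or.inr (Or.inl (by rw [h]))
  · exact Or.inr (Or.inr (by rw [h]))

/-- every vertex lies on at most two tricolor edges. -/
theorem deg2_tri (ω : bcc → Fin 3) : Deg2 (tri ω) := by
  have key : ∀ {Q A B : Vertex} {T : Finset bcc}, Q ≠ A → Q ≠ B → T.card = 3 → T ⊆ Q.1 →
      T ⊆ A.1 → T ⊆ B.1 → A = B := by
    intro Q A B T hQA hQB hT sQ sA sB
    rcases quadruples hT Q.2.1 A.2.1 B.2.1 Q.2.2 A.2.2 B.2.2 sQ sA sB with h | h | h
    · exact absurd (Subtype.ext h) hQA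
    · exact absurd (Subtype.ext h) hQB
    · exact Subtype.ext h
  rintro Q A B C ⟨nA, TA, cA, -, QA, TA', oA⟩ ⟨nB, TB, cB, -, QB, TB', oB⟩
    ⟨nC, TC, cC, -, QC, TC', oC⟩
  rcases triples Q.2.1 cA cB cC QA QB QC oA oB oC with h | h | h
  · subst h
    exact Or.inl (key nA nB cA QA TA' TB')
  · subst h
    exact Or.inr (Or.inl (key nA nC cA QA TA' TC'))
  · subst h
    exact Or.inr (Or.inr (key nB nC cB QB TB' TC'))

end H76.TP
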