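import Mathlib
import Pool.Agent.H76.TP.Meas
import Pool.Agent.H97.TP.Prob
import Pool.Agent.H97.TP.Pairs

/-!
If there are finitely many infinite components, every ray returns with positive upper density.
-/

open MeasureTheory Filter

namespace H76.TP

section

variable {V Ω Γ : Type*} [AddCommGroup Γ] [AddAction Γ V]

open Classical in
/-- the visits, in the window `D`, of the ray from `x` through `y`. -/
noncomputable def cnt (G : Ω → SimpleGraph V) (sh : Γ → Ω → Ω) (D : Finset Γ) (x : V)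
    (B : Set Ω) (ω : Ω) (y : V) : Finset Γ :=
  D.filter fun g => (∃ t, HasRay (G ω) x y ∧ theRay (G ω) x y t = g +ᵥ x) ∧ sh g ω ∈ B

/-- the ray from `x` through `y` exists and returns with density zero. -/
def ZeroD (G : Ω → SimpleGraph V) (sh : Γ → Ω → Ω) (F D : ℕ → Finset Γ) (x : V)
    (B : Set Ω) (ω : Ω) (y : V) : Prop :=
  HasRay (G ω) x y ∧ ∀ n : ℕ, ∃ N₀, ∀ N, N₀ ≤ N →
    (n + 1) * (cnt G sh (D N) x B ω y).card ≤ (F N).card

/-- the bad event. -/
def badSet (G : Ω → SimpleGraph V) (sh : Γ → Ω → Ω) (F D : ℕ → Finset Γ) (x : V)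
    (B : Set Ω) (K : ℕ) : Set Ω :=
  {ω | ω ∈ B ∧ {C : (G ω).ConnectedComponent | C.supp.Infinite}.encard ≤ K ∧
    ∃ y, ZeroD G sh F D x B ω y}

open Classical in
/-- the visits of the rays of density zero. -/
noncomputable def hset (G : Ω → SimpleGraph V) (sh : Γ → Ω → Ω) (F D : ℕ → Finset Γ) (x : V)
    (B : Set Ω) (N : ℕ) (ω : Ω) : Finset Γ :=
  (D N).filter fun g => ∃ y, ZeroD G sh F D x B ω y ∧ g ∈ cnt G sh (D N) x B ω y

omit [AddCommGroup Γ] in
theorem measurable_card_filter [MeasurableSpace Ω] (D : Finset Γ) (p : Γ → Ω → Prop)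
    [∀ ω, DecidablePred fun g => p g ω] (hp : ∀ g, MeasurableSet {ω | p g ω}) :
    Measurable fun ω => (D.filter fun g => p g ω).card := by
  classical
  have h : (fun ω => (D.filter fun g => p g ω).card) =
      fun ω => ∑ g ∈ D, if p g ω then 1 else 0 := by
    funext ω
    rw [Finset.card_filter]
  rw [h]
  refine Finset.measurable_sum _ fun g _ => ?_
  exact Measurable.ite (hp g) measurable_const measurable_const

theorem nbr_finite {G : SimpleGraph V} (hG : Deg2 G) (x : V) : {y | G.Adj x y}.Finite := by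
  by_cases h : ∃ a b, G.Adj x a ∧ G.Adj x b ∧ a ≠ b
  · obtain ⟨a, b, ha, hb, hab⟩ := h
    refine ((Set.finite_singleton a).insert b).subset fun y hy => ?_
    rcases hG x a b y ha hb hy with h | h | h
    · exact absurd h hab
    · exact Or.inr h.symm
    · exact Or.inl h.symm
  · push Not at h
    refine Set.Subsingleton.finite fun a ha b hb => ?_
    exact h a b ha hb

end

section

variable {V Ω Γ : Type*} [Countable V] [MeasurableSpace Ω] [AddCommGroup Γ] [AddAction Γ V]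
  {G : Ω → SimpleGraph V} {sh : Γ → Ω → Ω} {F D : ℕ → Finset Γ} {x : V} {B : Set Ω}

theorem measurableSet_mem_cnt (hG : ∀ ω, Deg2 (G ω))
    (hm : ∀ x y, MeasurableSet {ω | (G ω).Adj x y}) (hs : ∀ g, Measurable (sh g))
    (hB : MeasurableSet B) (y : V) (g : Γ) :
    MeasurableSet {ω | (∃ t, HasRay (G ω) x y ∧ theRay (G ω) x y t = g +ᵥ x) ∧ sh g ω ∈ B} := by
  have h0 : {ω | ∃ t, HasRay (G ω) x y ∧ theRay (G ω) x y t = g +ᵥ x} =
      ⋃ t, {ω | HasRay (G ω) x y ∧ theRay (G ω) x y t = g +ᵥ x} := by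
    ext ω
    simp only [Set.mem_iUnion, Set.mem_ofPred_eq]
  have h1 : MeasurableSet {ω | ∃ t, HasRay (G ω) x y ∧ theRay (G ω) x y t = g +ᵥ x} := by
    rw [h0]
    exact MeasurableSet.iUnion fun t => measurableSet_theRay hG hm x y t _
  exact h1.inter (hs g hB)

theorem measurableSet_zeroD (hG : ∀ ω, Deg2 (G ω))
    (hm : ∀ x y, MeasurableSet {ω | (G ω).Adj x y}) (hs : ∀ g, Measurable (sh g))
    (hB : MeasurableSet B) (y : V) : MeasurableSet {ω | ZeroD G sh F D x B ω y} := by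
  classical
  have h1 : {ω | ZeroD G sh F D x B ω y} = {ω | HasRay (G ω) x y} ∩
      ⋂ n : ℕ, ⋃ N₀ : ℕ, ⋂ N : ℕ, ⋂ _ : N₀ ≤ N,
        {ω | (n + 1) * (cnt G sh (D N) x B ω y).card ≤ (F N).card} := by
    ext ω
    simp only [ZeroD, Set.mem_inter_iff, Set.mem_iInter, Set.mem_iUnion, Set.mem_ofPred_eq]
  rw [h1]
  refine (measurableSet_hasRay hG hm x y).inter (MeasurableSet.iInter fun n =>
    MeasurableSet.iUnion fun N₀ => MeasurableSet.iInter fun N => MeasurableSet.iInter fun _ => ?_)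
  refine measurableSet_le ?_ measurable_const
  refine Measurable.const_mul ?_ _
  exact measurable_card_filter (D N) _ fun g => measurableSet_mem_cnt hG hm hs hB y g

theorem measurableSet_badSet (hG : ∀ ω, Deg2 (G ω))
    (hm : ∀ x y, MeasurableSet {ω | (G ω).Adj x y}) (hs : ∀ g, Measurable (sh g))
    (hB : MeasurableSet B) (K : ℕ) : MeasurableSet (badSet G sh F D x B K) := by
  have h0 : {ω | ∃ y, ZeroD G sh F D x B ω y} = ⋃ y, {ω | ZeroD G sh F D x B ω y} := by
    ext ω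
    simp only [Set.mem_iUnion, Set.mem_ofPred_eq]
  have h1 : MeasurableSet {ω | ∃ y, ZeroD G sh F D x B ω y} := by
    rw [h0]
    exact MeasurableSet.iUnion fun y => measurableSet_zeroD hG hm hs hB y
  exact hB.inter ((measurableSet_encard_le hm K).inter h1)

theorem measurable_hset (hG : ∀ ω, Deg2 (G ω))
    (hm : ∀ x y, MeasurableSet {ω | (G ω).Adj x y}) (hs : ∀ g, Measurable (sh g))
    (hB : MeasurableSet B) (N : ℕ) :
    Measurable fun ω => ((hset G sh F D x B N ω).card : ℝ) := by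
  classical
  refine Measurable.comp (g := fun n : ℕ => (n : ℝ)) measurable_from_top ?_
  refine measurable_card_filter (D N) _ fun g => ?_
  have : {ω | ∃ y, ZeroD G sh F D x B ω y ∧ g ∈ cnt G sh (D N) x B ω y} =
      ⋃ y, ({ω | ZeroD G sh F D x B ω y} ∩ {ω | g ∈ cnt G sh (D N) x B ω y}) := by
    ext ω
    simp only [Set.mem_iUnion, Set.mem_inter_iff, Set.mem_ofPred_eq]
  rw [this]
  refine MeasurableSet.iUnion fun y => (measurableSet_zeroD hG hm hs hB y).inter ?_
  by_cases hg : g ∈ D N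
  · have h2 : {ω | g ∈ cnt G sh (D N) x B ω y} =
        {ω | (∃ t, HasRay (G ω) x y ∧ theRay (G ω) x y t = g +ᵥ x) ∧ sh g ω ∈ B} := by
      ext ω
      simp only [cnt, Finset.mem_filter, hg, true_and, Set.mem_ofPred_eq]
    rw [h2]
    exact measurableSet_mem_cnt hG hm hs hB y g
  · have h2 : {ω | g ∈ cnt G sh (D N) x B ω y} = ∅ := by
      ext ω
      simp only [cnt, Finset.mem_filter, hg, false_and, Set.mem_ofPred_eq, Set.mem_empty_iff_false]
    rw [h2]
    exact MeasurableSet.empty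

omit [Countable V] [MeasurableSpace Ω] in
theorem tendsto_cnt (hF : Tendsto (fun N => (F N).card) atTop atTop) {ω : Ω} {y : V}
    (h : ZeroD G sh F D x B ω y) :
    Tendsto (fun N => ((cnt G sh (D N) x B ω y).card : ℝ) / (F N).card) atTop (nhds 0) := by
  rw [Metric.tendsto_atTop]
  intro ε hε
  obtain ⟨n, hn⟩ := exists_nat_one_div_lt hε
  obtain ⟨N₀, h0⟩ := h.2 n
  obtain ⟨N₁, h1⟩ := (tendsto_atTop_atTop.1 hF) 1
  refine ⟨max N₀ N₁, fun N hN => ?_⟩
  have h2 := h0 N (le_of_max_le_left hN)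
  have h3 : 0 < (F N).card := h1 N (le_of_max_le_right hN)
  have h2' : ((n : ℝ) + 1) * ((cnt G sh (D N) x B ω y).card : ℝ) ≤ (F N).card := by
    exact_mod_cast h2
  have h3' : (0 : ℝ) < (F N).card := by exact_mod_cast h3
  rw [Real.dist_0_eq_abs, abs_of_nonneg (by positivity)]
  refine lt_of_le_of_lt ?_ hn
  rw [div_le_div_iff₀ h3' (by positivity)]
  linarith

omit [Countable V] [MeasurableSpace Ω] in
theorem tendsto_hset (hG : ∀ ω, Deg2 (G ω)) (hF : Tendsto (fun N => (F N).card) atTop atTop)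
    (ω : Ω) :
    Tendsto (fun N => ((hset G sh F D x B N ω).card : ℝ) / (F N).card) atTop (nhds 0) := by
  classical
  have hfin : {y | ZeroD G sh F D x B ω y}.Finite := by
    refine (nbr_finite (hG ω) x).subset fun y hy => ?_
    obtain ⟨⟨ρ, hρ, h0, h1⟩, -⟩ := hy
    show (G ω).Adj x y
    rw [← h0, ← h1]
    exact hρ.2 0
  have hsum : Tendsto (fun N => ∑ y ∈ hfin.toFinset,
      ((cnt G sh (D N) x B ω y).card : ℝ) / (F N).card) atTop (nhds 0) := by
    have := tendsto_finsetSum (f := fun y N => ((cnt G sh (D N) x B ω y).card : ℝ) / (F N).card)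
      (a := fun _ => (0 : ℝ)) hfin.toFinset (x := atTop) (fun y hy =>
        tendsto_cnt hF (hfin.mem_toFinset.1 hy))
    simpa using this
  refine squeeze_zero (fun N => by positivity) (fun N => ?_) hsum
  rw [← Finset.sum_div]
  refine div_le_div_of_nonneg_right ?_ (by positivity)
  have h1 : hset G sh F D x B N ω ⊆ hfin.toFinset.biUnion fun y => cnt G sh (D N) x B ω y := by
    intro g hg
    obtain ⟨hgD, y, hy, hgy⟩ := Finset.mem_filter.1 hg
    exact Finset.mem_biUnion.2 ⟨y, hfin.mem_toFinset.2 hy, hgy⟩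
  have h2 := (Finset.card_le_card h1).trans Finset.card_biUnion_le
  exact_mod_cast h2

omit [Countable V] [MeasurableSpace Ω] in
theorem pair_ineq (hG : ∀ ω, Deg2 (G ω))
    (hadd : ∀ g h ω, sh g (sh h ω) = sh (g + h) ω)
    (hadj : ∀ g ω x y, (G (sh g ω)).Adj x y ↔ (G ω).Adj (g +ᵥ x) (g +ᵥ y))
    (hD : ∀ N, ∀ a ∈ F N, ∀ b ∈ F N, b - a ∈ D N) (K N : ℕ) (ω : Ω) :
    (∑ j ∈ F N, (badSet G sh F D x B K).indicator (fun _ => (1 : ℝ)) (sh j ω)) ^ 2 ≤
      (4 * K : ℝ) * ∑ j ∈ F N, ((hset G sh F D x B N (sh j ω)).card : ℝ) := by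
  classical
  set A := badSet G sh F D x B K with hA
  set S : Finset Γ := (F N).filter fun j => sh j ω ∈ A with hS
  have h1 : ∑ j ∈ F N, A.indicator (fun _ => (1 : ℝ)) (sh j ω) = S.card := by
    rw [hS, Finset.card_filter, Nat.cast_sum]
    refine Finset.sum_congr rfl fun j _ => ?_
    by_cases h : sh j ω ∈ A
    · rw [Set.indicator_of_mem h, if_pos h]; simp
    · rw [Set.indicator_of_notMem h, if_neg h]; simp
  rw [h1]
  rcases S.eq_empty_or_nonempty with h0 | ⟨j₀, hj₀⟩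
  · rw [h0]
    simp only [Finset.card_empty, Nat.cast_zero, ne_eq, OfNat.ofNat_ne_zero, not_false_eq_true,
      zero_pow]
    positivity
  have hbad : ∀ j ∈ S, ∃ y, ZeroD G sh F D x B (sh j ω) y :=
    fun j hj => (Finset.mem_filter.1 hj).2.2.2
  have : Nonempty V := ⟨x⟩
  choose! y hy using hbad
  set ω₀ := sh j₀ ω with hω₀
  have hshift : ∀ j, sh (j - j₀) ω₀ = sh j ω := by
    intro j
    rw [hω₀, hadd, sub_add_cancel]
  set r : Γ → ℕ → V := fun j t => (j - j₀) +ᵥ theRay (G (sh j ω)) x (y j) t with hr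
  have hray : ∀ j ∈ S, IsRay (G ω₀) (r j) := by
    intro j hj
    have h2 := (theRay_spec (hy j hj).1).1
    refine ⟨fun a b hab => h2.1 (vadd_left_cancel _ hab), fun t => ?_⟩
    have h3 := h2.2 t
    rw [← hshift j, hadj, hshift j] at h3
    exact h3
  have hr0 : ∀ j ∈ S, r j 0 = (j - j₀) +ᵥ x := by
    intro j hj
    show (j - j₀) +ᵥ theRay (G (sh j ω)) x (y j) 0 = _
    rw [(theRay_spec (hy j hj).1).2.1]
  have hK : {C : (G ω₀).ConnectedComponent | C.supp.Infinite}.encard ≤ K :=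
    (Finset.mem_filter.1 hj₀).2.2.1
  have h2 := H97.TP.card_sq_le_pairs (hG ω₀) K hK S r hray
  set Q := (S ×ˢ S).filter (fun p => r p.1 0 ∈ Set.range (r p.2)) with hQ
  have h3 : Q.card ≤ ∑ j ∈ S, (hset G sh F D x B N (sh j ω)).card := by
    rw [Finset.card_eq_sum_card_fiberwise (f := fun p : Γ × Γ => p.2) (t := S)]
    · refine Finset.sum_le_sum fun j hj => ?_
      refine Finset.card_le_card_of_injOn (fun p => p.1 - j) ?_ ?_
      · rintro ⟨i, j'⟩ hij
        obtain ⟨hij1, hij2⟩ := Finset.mem_filter.1 (Finset.mem_coe.1 hij)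
        obtain ⟨hij3, hij4⟩ := Finset.mem_filter.1 hij1
        obtain ⟨hi, -⟩ := Finset.mem_product.1 hij3
        simp only at hij2 hij4 hi
        subst hij2
        obtain ⟨t, ht⟩ := hij4
        rw [hr0 i hi] at ht
        have hiF : i ∈ F N := (Finset.mem_filter.1 hi).1
        have hjF : j' ∈ F N := (Finset.mem_filter.1 hj).1
        have hmem : theRay (G (sh j' ω)) x (y j') t = (i - j') +ᵥ x := by
          have h4 : (j' - j₀) +ᵥ theRay (G (sh j' ω)) x (y j') t =
              (j' - j₀) +ᵥ ((i - j') +ᵥ x) := by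
            rw [← add_vadd]
            rw [show j' - j₀ + (i - j') = i - j₀ by abel]
            exact ht
          exact vadd_left_cancel _ h4
        have hDm : i - j' ∈ D N := hD N j' hjF i hiF
        have hBm : sh (i - j') (sh j' ω) ∈ B := by
          rw [hadd, sub_add_cancel]
          exact (Finset.mem_filter.1 hi).2.1
        refine Finset.mem_coe.2 (Finset.mem_filter.2 ⟨hDm, y j', hy j' hj, ?_⟩)
        exact Finset.mem_filter.2 ⟨hDm, ⟨t, (hy j' hj).1, hmem⟩, hBm⟩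
      · rintro ⟨i, j'⟩ hij ⟨i', j''⟩ hij' heq
        have e1 := (Finset.mem_filter.1 (Finset.mem_coe.1 hij)).2
        have e2 := (Finset.mem_filter.1 (Finset.mem_coe.1 hij')).2
        simp only at e1 e2 heq
        have : i = i' := sub_left_injective heq
        rw [this, e1, e2]
    · intro p hp
      exact (Finset.mem_product.1 (Finset.mem_filter.1 hp).1).2
  have h4 : ∑ j ∈ S, (hset G sh F D x B N (sh j ω)).card ≤
      ∑ j ∈ F N, (hset G sh F D x B N (sh j ω)).card :=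
    Finset.sum_le_sum_of_subset (Finset.filter_subset _ _)
  have h5 : S.card ^ 2 ≤ 4 * K * ∑ j ∈ F N, (hset G sh F D x B N (sh j ω)).card :=
    h2.trans (Nat.mul_le_mul_left _ (h3.trans h4))
  exact_mod_cast h5

end

theorem density {V Ω Γ : Type*} [Countable V] [MeasurableSpace Ω] [AddCommGroup Γ]
    [AddAction Γ V] (P : Measure Ω) [IsProbabilityMeasure P] (G : Ω → SimpleGraph V)
    (hG : ∀ ω, Deg2 (G ω)) (hm : ∀ x y, MeasurableSet {ω | (G ω).Adj x y})
    (sh : Γ → Ω → Ω) (hsh : ∀ g, MeasurePreserving (sh g) P P)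
    (hadd : ∀ g h ω, sh g (sh h ω) = sh (g + h) ω)
    (hadj : ∀ g ω x y, (G (sh g ω)).Adj x y ↔ (G ω).Adj (g +ᵥ x) (g +ᵥ y))
    (F D : ℕ → Finset Γ) (hD : ∀ N, ∀ a ∈ F N, ∀ b ∈ F N, b - a ∈ D N) (c : ℕ)
    (hc : ∀ N, (D N).card ≤ c * (F N).card) (hF : Tendsto (fun N => (F N).card) atTop atTop)
    (x : V) (hx : Function.Injective fun g : Γ => g +ᵥ x) (B : Set Ω) (hB : MeasurableSet B) :
    ∀ᵐ ω ∂P, {C : (G ω).ConnectedComponent | C.supp.Infinite}.Finite → ω ∈ B →
      ∀ ρ, IsRay (G ω) ρ → ρ 0 = x → ∃ ε : ℝ, 0 < ε ∧ ∃ᶠ N in atTop,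
        ε * (F N).card ≤ ({g : Γ | g ∈ D N ∧ g +ᵥ x ∈ Set.range ρ ∧ sh g ω ∈ B}.ncard : ℝ) := by
  classical
  have _ := hx
  have hs : ∀ g, Measurable (sh g) := fun g => (hsh g).measurable
  have hA0 : ∀ K : ℕ, P (badSet G sh F D x B K) = 0 := by
    intro K
    refine H97.TP.prob_zero P sh hsh _ (measurableSet_badSet hG hm hs hB K) F hF
      (fun N ω => ((hset G sh F D x B N ω).card : ℝ)) (measurable_hset hG hm hs hB) c
      (fun N ω => by positivity) (fun N ω => ?_) (tendsto_hset hG hF) (4 * K)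
      (fun N ω => pair_ineq hG hadd hadj hD K N ω)
    have h1 : (hset G sh F D x B N ω).card ≤ (D N).card :=
      Finset.card_le_card (Finset.filter_subset _ _)
    exact_mod_cast h1.trans (hc N)
  have hae : ∀ᵐ ω ∂P, ∀ K : ℕ, ω ∉ badSet G sh F D x B K :=
    ae_all_iff.2 fun K => measure_eq_zero_iff_ae_notMem.1 (hA0 K)
  filter_upwards [hae] with ω hω hfin hωB ρ hρ hρ0
  by_contra hcon
  obtain ⟨K, hK⟩ := hfin.exists_encard_eq_coe
  have hray : HasRay (G ω) x (ρ 1) := ⟨ρ, hρ, hρ0, rfl⟩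
  have hthe : theRay (G ω) x (ρ 1) = ρ := by
    have := theRay_eq (hG ω) hρ
    rwa [hρ0] at this
  refine hω K ⟨hωB, hK.le, ρ 1, hray, fun n => ?_⟩
  have h1 : ¬ ∃ᶠ N in atTop, (1 / ((n : ℝ) + 1)) * (F N).card ≤
      ({g : Γ | g ∈ D N ∧ g +ᵥ x ∈ Set.range ρ ∧ sh g ω ∈ B}.ncard : ℝ) :=
    fun h => hcon ⟨1 / ((n : ℝ) + 1), by positivity, h⟩
  rw [not_frequently, eventually_atTop] at h1
  obtain ⟨N₀, h2⟩ := h1
  refine ⟨N₀, fun N hN => ?_⟩
  have h3 := h2 N hN
  have h4 : {g : Γ | g ∈ D N ∧ g +ᵥ x ∈ Set.range ρ ∧ sh g ω ∈ B} =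
      (cnt G sh (D N) x B ω (ρ 1) : Set Γ) := by
    ext g
    simp only [cnt, Finset.coe_filter, Set.mem_ofPred_eq, hthe, hray, true_and, Set.mem_range]
  rw [h4, Set.ncard_coe_finset, not_le, div_mul_eq_mul_div, one_mul] at h3
  rw [lt_div_iff₀ (by positivity)] at h3
  have h5 : ((n : ℝ) + 1) * ((cnt G sh (D N) x B ω (ρ 1)).card : ℝ) ≤ (F N).card := by linarith
  exact_mod_cast h5

end H76.TP
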