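import Pool.Agent.H76.TP.Lines

/-!
Every ray is unbounded in every direction.
-/

open MeasureTheory Filter

namespace H76.TP

/-- the vector `2 e_i`. -/
def ee (i : Fin 3) : bcc := ⟨fun j => if j = i then 2 else 0, by
  intro j k
  by_cases hj : j = i <;> by_cases hk : k = i <;> simp [hj, hk]⟩

/-- the height. -/
noncomputable def lin (u : Fin 3 → ℝ) : bcc →+ ℝ where
  toFun g := ∑ i, u i * g.1 i
  map_zero' := by simp
  map_add' g h := by
    have : ∀ i, (((g + h : bcc).1 i : ℤ) : ℝ) = (g.1 i : ℝ) + (h.1 i : ℝ) := fun i => by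
      simp
    simp only [this, mul_add, Finset.sum_add_distrib]

theorem lin_apply (u : Fin 3 → ℝ) (g : bcc) : lin u g = ∑ i, u i * g.1 i := rfl

theorem lin_ee (u : Fin 3 → ℝ) (i : Fin 3) : lin u (ee i) = 2 * u i := by
  rw [lin_apply]
  unfold ee
  simp [mul_comm]

/-- infinitely many lattice vectors in a slab. -/
theorem slab (u : Fin 3 → ℝ) : ∃ s : ℝ, 0 < s ∧ {g : bcc | |s * lin u g| ≤ 1}.Infinite := by
  by_cases h1 : u 1 = 0
  · refine ⟨1, one_pos, ?_⟩
    refine (Set.infinite_range_of_injective (f := fun n : ℕ => n • ee 1) ?_).mono ?_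
    · intro n m hnm
      have h : (n • ee 1).1 1 = (m • ee 1).1 1 := by
        have : n • ee 1 = m • ee 1 := hnm
        rw [this]
      simp [ee] at h
      exact h
    · rintro _ ⟨n, rfl⟩
      show |1 * lin u (n • ee 1)| ≤ 1
      rw [map_nsmul, lin_ee, h1]
      simp
  · refine ⟨1 / (|u 1| + 1), by positivity, ?_⟩
    refine (Set.infinite_range_of_injective
      (f := fun n : ℤ => n • ee 0 + round (-(n * u 0 / u 1)) • ee 1) ?_).mono ?_
    · intro n m hnm
      have h : (n • ee 0 + round (-(n * u 0 / u 1)) • ee 1).1 0 =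
          (m • ee 0 + round (-(m * u 0 / u 1)) • ee 1).1 0 := by
        have : n • ee 0 + round (-(n * u 0 / u 1)) • ee 1 =
          m • ee 0 + round (-(m * u 0 / u 1)) • ee 1 := hnm
        rw [this]
      simp [ee] at h
      exact h
    · rintro _ ⟨n, rfl⟩
      show |1 / (|u 1| + 1) * lin u (n • ee 0 + round (-(n * u 0 / u 1)) • ee 1)| ≤ 1
      rw [map_add, map_zsmul, map_zsmul, lin_ee, lin_ee]
      have hr := abs_sub_round (-(n * u 0 / u 1))
      have e : n • (2 * u 0) + round (-(n * u 0 / u 1)) • (2 * u 1) =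
          -(2 * u 1) * (-(n * u 0 / u 1) - round (-(n * u 0 / u 1))) := by
        simp only [zsmul_eq_mul]
        field_simp
        ring
      rw [e, abs_mul, abs_mul, abs_neg, abs_mul, abs_two, abs_of_pos (by positivity)]
      have hu : 0 ≤ |u 1| := abs_nonneg _
      calc 1 / (|u 1| + 1) * (2 * |u 1| * |-(n * u 0 / u 1) - round (-(n * u 0 / u 1))|)
          ≤ 1 / (|u 1| + 1) * (2 * |u 1| * (1 / 2)) := by gcongr
        _ = |u 1| / (|u 1| + 1) := by ring
        _ ≤ 1 := by rw [div_le_one (by positivity)]; linarith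

theorem near_coord {Q : Vertex} {v w : bcc} (hv : v ∈ Q.1) (hw : w ∈ Q.1) (i : Fin 3) :
    |(v.1 i : ℝ) - w.1 i| ≤ 2 := by
  by_cases hvw : v = w
  · rw [hvw]
    simp
  · have := near_bound (Q.2.2 v hv w hw hvw) i
    rw [abs_le]
    have h1 : (v.1 i : ℝ) - w.1 i ≤ 2 := by exact_mod_cast this.1
    have h2 : (w.1 i : ℝ) - v.1 i ≤ 2 := by exact_mod_cast this.2
    constructor <;> linarith

/-- the height of a vertex of the tessellation is four times the height of each of its cells, up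
to a bounded error. -/
theorem height_close (u : Fin 3 → ℝ) (Q : Vertex) (v : bcc) (hv : v ∈ Q.1) :
    ∑ i, u i * (bary Q i : ℝ) ≤ 4 * ∑ i, u i * (v.1 i : ℝ) + 8 * ∑ i, |u i| := by
  have hb : ∑ i, u i * (bary Q i : ℝ) = ∑ w ∈ Q.1, ∑ i, u i * (w.1 i : ℝ) := by
    rw [Finset.sum_comm]
    refine Finset.sum_congr rfl fun i _ => ?_
    unfold bary
    push_cast
    rw [Finset.mul_sum]
  rw [hb]
  have h1 : ∀ w ∈ Q.1, ∑ i, u i * (w.1 i : ℝ) ≤ ∑ i, u i * (v.1 i : ℝ) + 2 * ∑ i, |u i| := by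
    intro w hw
    rw [Finset.mul_sum, ← Finset.sum_add_distrib]
    refine Finset.sum_le_sum fun i _ => ?_
    have h2 := near_coord hw hv i
    have h3 : u i * ((w.1 i : ℝ) - v.1 i) ≤ |u i| * 2 := by
      calc u i * ((w.1 i : ℝ) - v.1 i) ≤ |u i * ((w.1 i : ℝ) - v.1 i)| := le_abs_self _
        _ = |u i| * |(w.1 i : ℝ) - v.1 i| := abs_mul _ _
        _ ≤ |u i| * 2 := by gcongr
    linarith
  calc ∑ w ∈ Q.1, ∑ i, u i * (w.1 i : ℝ)
      ≤ ∑ w ∈ Q.1, (∑ i, u i * (v.1 i : ℝ) + 2 * ∑ i, |u i|) := Finset.sum_le_sum h1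
    _ = 4 * ∑ i, u i * (v.1 i : ℝ) + 8 * ∑ i, |u i| := by
        rw [Finset.sum_const, Q.2.1]
        simp only [nsmul_eq_mul, Nat.cast_ofNat]
        ring

theorem halfspaces (μ : Measure (Fin 3)) [IsProbabilityMeasure μ] (u : Fin 3 → ℝ)
    (hu : u ≠ 0) :
    ∀ᵐ ω ∂law μ, (infinitePaths ω).Finite → ∀ ρ, IsRay (tri ω) ρ → ∀ c : ℝ,
      {t | ∀ v ∈ (ρ t).1, c ≤ ∑ i, u i * (v.1 i : ℝ)}.Infinite := by
  obtain ⟨s, hs, hinf⟩ := slab fun i => 4 * u i
  have h := oscillate (Γ := bcc) (law μ) tri deg2_tri measurableSet_adj sh (sh_mp μ) sh_sh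
    (fun g ω Q R => adj_sh g ω Q R) free (fun Q => s * ∑ i, u i * (bary Q i : ℝ))
    ((AddMonoidHom.mulLeft s).comp (lin fun i => 4 * u i)) ?_ ?_ hinf
  · filter_upwards [h] with ω h hfin ρ hρ c
    refine (h hfin ρ hρ (s * (4 * c + 8 * ∑ i, |u i|))).mono fun t ht v hv => ?_
    have h1 : 4 * c + 8 * ∑ i, |u i| ≤ ∑ i, u i * (bary (ρ t) i : ℝ) :=
      le_of_mul_le_mul_left ht hs
    have h2 := height_close u (ρ t) v hv
    linarith
  · intro g Q
    show s * ∑ i, u i * (bary (g +ᵥ Q) i : ℝ) = s * ∑ i, u i * (bary Q i : ℝ) +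
      s * ∑ i, 4 * u i * (g.1 i : ℝ)
    rw [← mul_add, ← Finset.sum_add_distrib]
    congr 1
    refine Finset.sum_congr rfl fun i _ => ?_
    rw [bary_vadd]
    push_cast
    ring
  · obtain ⟨i, hi⟩ := Function.ne_iff.1 hu
    refine ⟨ee i, ?_⟩
    show s * lin (fun i => 4 * u i) (ee i) ≠ 0
    rw [lin_ee]
    have hi' : u i ≠ 0 := hi
    have := hs.ne'
    positivity

end H76.TP
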