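import Pool.Agent.H76.TP.Defs
import Pool.Agent.H76.TP.Fin

/-!
The tricolor graph has maximal degree two; translations.
-/

open MeasureTheory

namespace H76.TP

/-- a code for vectors with small coordinates. -/
def code (v : Fin 3 → ℤ) : ℤ := v 0 + 9 * v 1 + 81 * v 2

def NL : List ℤ := [2, -2, 18, -18, 162, -162, 91, 89, 73, 71, -91, -89, -73, -71]

theorem near_code {v w : bcc} (h : Near v w) : code v.1 - code w.1 ∈ NL := by
  unfold code NL
  rcases h with ⟨i, hi, hj⟩ | h
  · fin_cases i
    · have h1 := hj 1 (by decide)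
      have h2 := hj 2 (by decide)
      have h0 : v.1 0 - w.1 0 = 2 ∨ v.1 0 - w.1 0 = -2 := by
        rcases abs_eq (by norm_num : (0:ℤ) ≤ 2) |>.1 hi with h | h
        · exact Or.inl h
        · exact Or.inr h
      simp only [List.mem_cons, List.not_mem_nil, or_false]
      omega
    · have h1 := hj 0 (by decide)
      have h2 := hj 2 (by decide)
      have h0 : v.1 1 - w.1 1 = 2 ∨ v.1 1 - w.1 1 = -2 := by
        rcases abs_eq (by norm_num : (0:ℤ) ≤ 2) |>.1 hi with h | h
        · exact Or.inl h
        · exact Or.inr h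
      simp only [List.mem_cons, List.not_mem_nil, or_false]
      omega
    · have h1 := hj 0 (by decide)
      have h2 := hj 1 (by decide)
      have h0 : v.1 2 - w.1 2 = 2 ∨ v.1 2 - w.1 2 = -2 := by
        rcases abs_eq (by norm_num : (0:ℤ) ≤ 2) |>.1 hi with h | h
        · exact Or.inl h
        · exact Or.inr h
      simp only [List.mem_cons, List.not_mem_nil, or_false]
      omega
  · have h0 := (abs_eq (by norm_num : (0:ℤ) ≤ 1)).1 (h 0)
    have h1 := (abs_eq (by norm_num : (0:ℤ) ≤ 1)).1 (h 1)
    have h2 := (abs_eq (by norm_num : (0:ℤ) ≤ 1)).1 (h 2)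
    simp only [List.mem_cons, List.not_mem_nil, or_false]
    omega

theorem near_bound {v w : bcc} (h : Near v w) (i : Fin 3) :
    v.1 i - w.1 i ≤ 2 ∧ w.1 i - v.1 i ≤ 2 := by
  rcases h with ⟨j, hi, hj⟩ | h
  · by_cases hij : i = j
    · subst hij
      rcases (abs_eq (by norm_num : (0:ℤ) ≤ 2)).1 hi with h | h <;> omega
    · have := hj i hij
      omega
  · rcases (abs_eq (by norm_num : (0:ℤ) ≤ 1)).1 (h i) with h | h <;> omega

/-- the codes adjacent to `u`, `v` and `0`. -/
def comps (u v : ℤ) : List ℤ := NL.filter fun x => decide (x - u ∈ NL ∧ x - v ∈ NL)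

theorem comps_check : ∀ u ∈ NL, ∀ v ∈ NL, u - v ∈ NL → (comps u v).length ≤ 2 := by
  decide +kernel

theorem two_of_length {l : List ℤ} (h : l.length ≤ 2) {x y z : ℤ} (hx : x ∈ l) (hy : y ∈ l)
    (hz : z ∈ l) : x = y ∨ x = z ∨ y = z := by
  match l, h with
  | [], _ => simp at hx
  | [a], _ =>
    simp only [List.mem_singleton] at hx hy
    exact Or.inl (hx.trans hy.symm)
  | [a, b], _ =>
    simp only [List.mem_cons, List.not_mem_nil, or_false] at hx hy hz
    rcases hx with rfl | rfl <;> rcases hy with rfl | rfl <;> rcases hz with rfl | rfl <;> simp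
  | a :: b :: c :: l, h =>
    simp only [List.length_cons] at h
    omega

theorem finite_check : ∀ u ∈ NL, ∀ v ∈ NL, u - v ∈ NL → ∀ x ∈ NL, x - u ∈ NL → x - v ∈ NL →
    ∀ y ∈ NL, y - u ∈ NL → y - v ∈ NL → ∀ z ∈ NL, z - u ∈ NL → z - v ∈ NL →
    x = y ∨ x = z ∨ y = z := by
  intro u hu v hv huv x hx hxu hxv y hy hyu hyv z hz hzu hzv
  refine two_of_length (comps_check u hu v hv huv) ?_ ?_ ?_
  · exact List.mem_filter.2 ⟨hx, decide_eq_true ⟨hxu, hxv⟩⟩
  · exact List.mem_filter.2 ⟨hy, decide_eq_true ⟨hyu, hyv⟩⟩
  · exact List.mem_filter.2 ⟨hz, decide_eq_true ⟨hzu, hzv⟩⟩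

theorem eq_of_code {a g h : bcc} (hg : Near g a) (hh : Near h a)
    (hc : code g.1 - code a.1 = code h.1 - code a.1) : g = h := by
  have g0 := near_bound hg 0
  have g1 := near_bound hg 1
  have g2 := near_bound hg 2
  have h0 := near_bound hh 0
  have h1 := near_bound hh 1
  have h2 := near_bound hh 2
  unfold code at hc
  apply Subtype.ext
  funext i
  fin_cases i
  · show g.1 0 = h.1 0
    omega
  · show g.1 1 = h.1 1
    omega
  · show g.1 2 = h.1 2
    omega

/-- at most two cells are adjacent to all members of a triple. -/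
theorem two_completions {a b c g h k : bcc} (hba : Near b a) (hca : Near c a) (hbc : Near b c)
    (ga : Near g a) (gb : Near g b) (gc : Near g c) (ha : Near h a) (hb : Near h b)
    (hc : Near h c) (ka : Near k a) (kb : Near k b) (kc : Near k c) :
    g = h ∨ g = k ∨ h = k := by
  have key := finite_check _ (near_code hba) _ (near_code hca)
    (by
      have := near_code hbc
      rwa [show code b.1 - code a.1 - (code c.1 - code a.1) = code b.1 - code c.1 by ring])
    _ (near_code ga)
    (by
      have := near_code gb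
      rwa [show code g.1 - code a.1 - (code b.1 - code a.1) = code g.1 - code b.1 by ring])
    (by
      have := near_code gc
      rwa [show code g.1 - code a.1 - (code c.1 - code a.1) = code g.1 - code c.1 by ring])
    _ (near_code ha)
    (by
      have := near_code hb
      rwa [show code h.1 - code a.1 - (code b.1 - code a.1) = code h.1 - code b.1 by ring])
    (by
      have := near_code hc
      rwa [show code h.1 - code a.1 - (code c.1 - code a.1) = code h.1 - code c.1 by ring])
    _ (near_code ka)
    (by
      have := near_code kb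
      rwa [show code k.1 - code a.1 - (code b.1 - code a.1) = code k.1 - code b.1 by ring])
    (by
      have := near_code kc
      rwa [show code k.1 - code a.1 - (code c.1 - code a.1) = code k.1 - code c.1 by ring])
  rcases key with h1 | h1 | h1
  · exact Or.inl (eq_of_code ga ha h1)
  · exact Or.inr (Or.inl (eq_of_code ga ka h1))
  · exact Or.inr (Or.inr (eq_of_code ha ka h1))

end H76.TP
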