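import Mathlib
import Pool.Agent.H76.TP.Meas

/-!
If there are finitely many infinite components, every ray is unbounded in every direction.
-/

open MeasureTheory Filter

namespace H76.TP

section shift

variable {V Γ : Type*} [AddCommGroup Γ] [AddAction Γ V]

/-- `G'` is the graph `G` seen from the point `g`. -/
private def Shf (G' G : SimpleGraph V) (g : Γ) : Prop :=
  ∀ x y, G'.Adj x y ↔ G.Adj (g +ᵥ x) (g +ᵥ y)

private def shIso {G' G : SimpleGraph V} {g : Γ} (H : Shf G' G g) : G' ≃g G where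
  toEquiv := AddAction.toPerm g
  map_rel_iff' := by
    intro a b
    exact (H a b).symm

private theorem fin_shf {G' G : SimpleGraph V} {g : Γ} (H : Shf G' G g)
    (hf : {C : G'.ConnectedComponent | C.supp.Infinite}.Finite) :
    {C : G.ConnectedComponent | C.supp.Infinite}.Finite := by
  refine (hf.image (shIso H).connectedComponentEquiv).subset ?_
  intro C hC
  refine ⟨(shIso H).connectedComponentEquiv.symm C, ?_, by simp⟩
  have e := SimpleGraph.ConnectedComponent.isoEquivSupp (shIso H)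
    ((shIso H).connectedComponentEquiv.symm C)
  rw [Equiv.apply_symm_apply] at e
  intro hfin
  apply hC
  have : Finite C.supp := by
    have := hfin.to_subtype
    exact Finite.of_equiv _ e
  exact Set.toFinite _

private theorem ray_shf {G' G : SimpleGraph V} {g : Γ} (H : Shf G' G g) {ρ : ℕ → V}
    (hρ : IsRay G' ρ) : IsRay G fun t => g +ᵥ ρ t := by
  refine ⟨fun a b hab => hρ.1 ?_, fun t => (H _ _).1 (hρ.2 t)⟩
  exact (AddAction.toPerm g).injective hab

private theorem reach_shf {G' G : SimpleGraph V} {g : Γ} (H : Shf G' G g) {x y : V} :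
    G.Reachable (g +ᵥ x) (g +ᵥ y) ↔ G'.Reachable x y :=
  SimpleGraph.Iso.reachable_iff (φ := shIso H)

private theorem inf_shf {G' G : SimpleGraph V} {g : Γ} (H : Shf G' G g) {x : V}
    (hx : (G'.connectedComponentMk x).supp.Infinite) :
    (G.connectedComponentMk (g +ᵥ x)).supp.Infinite := by
  have e := SimpleGraph.ConnectedComponent.isoEquivSupp (shIso H) (G'.connectedComponentMk x)
  intro hfin
  apply hx
  have h1 : Finite ((shIso H).connectedComponentEquiv (G'.connectedComponentMk x)).supp :=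
    hfin.to_subtype
  have : Finite (G'.connectedComponentMk x).supp := Finite.of_equiv _ e.symm
  exact Set.toFinite _

private theorem iter_shf {Ω : Type*} {G : Ω → SimpleGraph V} {sh : Γ → Ω → Ω}
    (hadj : ∀ g ω x y, (G (sh g ω)).Adj x y ↔ (G ω).Adj (g +ᵥ x) (g +ᵥ y)) (g : Γ) (m : ℕ)
    (ω : Ω) : Shf (G ((sh g)^[m] ω)) (G ω) (m • g) := by
  induction m with
  | zero =>
    intro x y
    simp
  | succ m ih =>
    intro x y
    rw [Function.iterate_succ_apply', hadj, ih, vadd_vadd, vadd_vadd, succ_nsmul]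

end shift

/-- a set of indices is covered by finitely many classes of ends. -/
private theorem exists_class {V : Type*} {G : SimpleGraph V} (hG : Deg2 G)
    (hf : {C : G.ConnectedComponent | C.supp.Infinite}.Finite) (I : Set ℕ) (hI : I.Infinite)
    (r : ℕ → ℕ → V) (hr : ∀ m ∈ I, IsRay G (r m)) :
    ∃ m ∈ I, {n | n ∈ I ∧ Same (r m) (r n)}.Infinite := by
  classical
  set I' : Set ℕ := {n | n ∈ I ∧ ∀ m ∈ I, m < n → ¬ Same (r m) (r n)} with hI'
  have hfin : I'.Finite := by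
    refine ends_finite hG hf I' r (fun m hm => hr m hm.1) ?_
    intro m hm n hn hs
    rcases lt_trichotomy m n with h | h | h
    · exact absurd hs (hn.2 m hm.1 h)
    · exact h
    · exact absurd hs.symm (hm.2 n hn.1 h)
  by_contra hcon
  push Not at hcon
  apply hI
  have hsub : I ⊆ ⋃ m ∈ I', {n | n ∈ I ∧ Same (r m) (r n)} := by
    intro n hn
    have hex : ∃ m, m ∈ I ∧ Same (r m) (r n) := ⟨n, hn, 0, 0, fun t => rfl⟩
    have h1 := Nat.find_spec hex
    have h2 := fun k (hk : k < Nat.find hex) => Nat.find_min hex hk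
    simp only [Set.mem_iUnion, Set.mem_ofPred_eq]
    refine ⟨Nat.find hex, ⟨h1.1, ?_⟩, hn, h1.2⟩
    intro k hk hlt hs
    exact h2 k hlt ⟨hk, hs.trans h1.2⟩
  refine (hfin.biUnion fun m hm => ?_).subset hsub
  exact hcon m hm.1

/-- reverse Fatou lemma for events of equal probability. -/
private theorem freq_pos {Ω : Type*} [MeasurableSpace Ω] (P : Measure Ω) [IsProbabilityMeasure P]
    (E : ℕ → Set Ω) (hE : ∀ n, MeasurableSet (E n)) (p : ENNReal) (hp : 0 < p)
    (hpE : ∀ n, p ≤ P (E n)) : 0 < P {ω | ∃ᶠ n in atTop, ω ∈ E n} := by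
  have h1 : {ω | ∃ᶠ n in atTop, ω ∈ E n} = ⋂ N : ℕ, ⋃ n : ℕ, ⋃ (_ : N ≤ n), E n := by
    ext ω
    simp only [Set.mem_ofPred_eq, frequently_atTop, Set.mem_iInter, Set.mem_iUnion, exists_prop]
  rw [h1]
  have hanti : Antitone fun N : ℕ => ⋃ n : ℕ, ⋃ (_ : N ≤ n), E n := by
    intro a b hab
    refine Set.iUnion_mono fun n => ?_
    intro ω hω
    simp only [Set.mem_iUnion, exists_prop] at hω ⊢
    exact ⟨hab.trans hω.1, hω.2⟩
  have hlim := tendsto_measure_iInter_atTop (μ := P)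
    (s := fun N : ℕ => ⋃ n : ℕ, ⋃ (_ : N ≤ n), E n)
    (fun N => (MeasurableSet.iUnion fun n => MeasurableSet.iUnion fun _ => hE n).nullMeasurableSet)
    hanti ⟨0, measure_ne_top _ _⟩
  refine lt_of_lt_of_le hp (ge_of_tendsto' hlim fun N => ?_)
  refine (hpE N).trans (measure_mono ?_)
  intro ω hω
  simp only [Set.mem_iUnion, exists_prop]
  exact ⟨N, le_refl N, hω⟩

section main

variable {V Ω Γ : Type*} [Countable V] [MeasurableSpace Ω] [AddCommGroup Γ]
    [AddAction Γ V] (P : Measure Ω) [IsProbabilityMeasure P] (G : Ω → SimpleGraph V)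
    (hG : ∀ ω, Deg2 (G ω)) (hm : ∀ x y, MeasurableSet {ω | (G ω).Adj x y})
    (sh : Γ → Ω → Ω) (hsh : ∀ g, MeasurePreserving (sh g) P P)
    (hadj : ∀ g ω x y, (G (sh g ω)).Adj x y ↔ (G ω).Adj (g +ᵥ x) (g +ᵥ y))

include hG hm in
private theorem meas_at (x y : V) (t : ℕ) (Q : V → Prop) :
    MeasurableSet {ω | HasRay (G ω) x y ∧ Q (theRay (G ω) x y t)} := by
  have h1 : {ω | HasRay (G ω) x y ∧ Q (theRay (G ω) x y t)} =
      ⋃ z ∈ {z | Q z}, {ω | HasRay (G ω) x y ∧ theRay (G ω) x y t = z} := by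
    ext ω
    simp only [Set.mem_ofPred_eq, Set.mem_iUnion, exists_prop]
    constructor
    · rintro ⟨h1, h2⟩
      exact ⟨_, h2, h1, rfl⟩
    · rintro ⟨z, h2, h1, rfl⟩
      exact ⟨h1, h2⟩
  rw [h1]
  exact MeasurableSet.biUnion (Set.to_countable _) fun z _ => measurableSet_theRay hG hm x y t z

include hG hm in
private theorem meas_ev (x y : V) (Q : V → Prop) :
    MeasurableSet {ω | HasRay (G ω) x y ∧ ∃ T, ∀ t, T ≤ t → Q (theRay (G ω) x y t)} := by
  have h1 : {ω | HasRay (G ω) x y ∧ ∃ T, ∀ t, T ≤ t → Q (theRay (G ω) x y t)} =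
      ⋃ T : ℕ, ⋂ t : ℕ, ⋂ (_ : T ≤ t), {ω | HasRay (G ω) x y ∧ Q (theRay (G ω) x y t)} := by
    ext ω
    simp only [Set.mem_ofPred_eq, Set.mem_iUnion, Set.mem_iInter]
    constructor
    · rintro ⟨h1, T, h2⟩
      exact ⟨T, fun t ht => ⟨h1, h2 t ht⟩⟩
    · rintro ⟨T, h2⟩
      exact ⟨(h2 T le_rfl).1, T, fun t ht => (h2 t ht).2⟩
  rw [h1]
  exact MeasurableSet.iUnion fun T => MeasurableSet.iInter fun t => MeasurableSet.iInter fun _ =>
    meas_at G hG hm x y t Q

include hG hm in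
private theorem meas_fr (x y : V) (Q : V → Prop) :
    MeasurableSet {ω | HasRay (G ω) x y ∧ ∀ T, ∃ t, T ≤ t ∧ Q (theRay (G ω) x y t)} := by
  have h1 : {ω | HasRay (G ω) x y ∧ ∀ T, ∃ t, T ≤ t ∧ Q (theRay (G ω) x y t)} =
      ⋂ T : ℕ, ⋃ t : ℕ, ⋃ (_ : T ≤ t), {ω | HasRay (G ω) x y ∧ Q (theRay (G ω) x y t)} := by
    ext ω
    simp only [Set.mem_ofPred_eq, Set.mem_iUnion, Set.mem_iInter, exists_prop]
    constructor
    · rintro ⟨h1, h2⟩ T
      obtain ⟨t, ht, hQ⟩ := h2 T
      exact ⟨t, ht, h1, hQ⟩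
    · intro h2
      obtain ⟨t, -, h3, -⟩ := h2 0
      refine ⟨h3, fun T => ?_⟩
      obtain ⟨t, ht, -, hQ⟩ := h2 T
      exact ⟨t, ht, hQ⟩
  rw [h1]
  exact MeasurableSet.iInter fun T => MeasurableSet.iUnion fun t => MeasurableSet.iUnion fun _ =>
    meas_at G hG hm x y t Q

variable (h : V → ℝ) (l : Γ →+ ℝ) (hh : ∀ g x, h (g +ᵥ x) = h x + l g)

include hG hm hsh hadj hh in
/-- no ray has a finite upper limit of the height. -/
private theorem part_one (g : Γ) (hg : 0 < l g) (b : ℝ) :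
    ∀ᵐ ω ∂P, {C : (G ω).ConnectedComponent | C.supp.Infinite}.Finite →
      ∀ ρ, IsRay (G ω) ρ → (∃ T, ∀ t, T ≤ t → h (ρ t) ≤ b + l g) →
        ¬ ∀ T, ∃ t, T ≤ t ∧ b < h (ρ t) := by
  set A : Set Ω := ⋃ x : V, ⋃ y : V,
    ({ω | HasRay (G ω) x y ∧ ∃ T, ∀ t, T ≤ t → h (theRay (G ω) x y t) ≤ b + l g} ∩
      {ω | HasRay (G ω) x y ∧ ∀ T, ∃ t, T ≤ t ∧ b < h (theRay (G ω) x y t)}) with hA
  have hAm : MeasurableSet A := by
    refine MeasurableSet.iUnion fun x => MeasurableSet.iUnion fun y => ?_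
    exact (meas_ev G hG hm x y fun z => h z ≤ b + l g).inter
      (meas_fr G hG hm x y fun z => b < h z)
  have hrec := (hsh g).conservative.ae_mem_imp_frequently_image_mem hAm.nullMeasurableSet
  filter_upwards [hrec] with ω hω hf ρ hρ h1 h2
  have : Nonempty V := ⟨ρ 0⟩
  have hmem : ω ∈ A := by
    rw [hA]
    simp only [Set.mem_iUnion]
    refine ⟨ρ 0, ρ 1, ⟨⟨ρ, hρ, rfl, rfl⟩, ?_⟩, ⟨ρ, hρ, rfl, rfl⟩, ?_⟩
    · rw [theRay_eq (hG ω) hρ]
      exact h1
    · rw [theRay_eq (hG ω) hρ]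
      exact h2
  have hfr := hω hmem
  set I : Set ℕ := {n | (sh g)^[n] ω ∈ A} with hI
  have hIinf : I.Infinite := Nat.frequently_atTop_iff_infinite.1 hfr
  have hex : ∀ n ∈ I, ∃ σ, IsRay (G ω) σ ∧ (∃ T, ∀ t, T ≤ t → h (σ t) ≤ b + l g + n * l g) ∧
      ∀ T, ∃ t, T ≤ t ∧ b + n * l g < h (σ t) := by
    intro n hn
    have hn' : (sh g)^[n] ω ∈ A := hn
    rw [hA] at hn'
    simp only [Set.mem_iUnion] at hn'
    obtain ⟨x, y, ⟨h3, T, h4⟩, -, h5⟩ := hn'
    have hS := iter_shf (G := G) (sh := sh) hadj g n ω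
    have hr := (theRay_spec h3).1
    have hl : l (n • g) = n * l g := by rw [map_nsmul, nsmul_eq_mul]
    refine ⟨_, ray_shf hS hr, ⟨T, fun t ht => ?_⟩, fun T' => ?_⟩
    · have := h4 t ht
      simp only [hh, hl]
      linarith
    · obtain ⟨t, ht, h6⟩ := h5 T'
      refine ⟨t, ht, ?_⟩
      simp only [hh, hl]
      linarith
  choose! r hr1 hr2 hr3 using hex
  apply hIinf
  refine ends_finite (hG ω) hf I r hr1 ?_
  have key : ∀ m ∈ I, ∀ n ∈ I, m < n → ¬ Same (r m) (r n) := by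
    intro m hm' n hn hmn hs
    obtain ⟨p, q, hpq⟩ := hs
    obtain ⟨T, hT⟩ := hr2 m hm'
    obtain ⟨t, ht, h7⟩ := hr3 n hn (q + T)
    obtain ⟨u, rfl⟩ : ∃ u, t = q + (T + u) := ⟨t - q - T, by omega⟩
    rw [← hpq (T + u)] at h7
    have h8 := hT (p + (T + u)) (by omega)
    have h9 : (m : ℝ) + 1 ≤ n := by exact_mod_cast hmn
    nlinarith
  intro m hm' n hn hs
  rcases lt_trichotomy m n with h3 | h3 | h3
  · exact absurd hs (key m hm' n hn h3)
  · exact h3
  · exact absurd hs.symm (key n hn m hm' h3)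

include hm hsh hadj hh in
/-- no infinite component has a finite upper bound of the height. -/
private theorem part_two (g : Γ) (hg : 0 < l g) (b : ℝ) :
    ∀ᵐ ω ∂P, {C : (G ω).ConnectedComponent | C.supp.Infinite}.Finite →
      ∀ x, ((G ω).connectedComponentMk x).supp.Infinite →
        (∀ y, (G ω).Reachable x y → h y ≤ b + l g) → ¬ b < h x := by
  set A : Set Ω := ⋃ x ∈ {x : V | b < h x},
    ({ω | ((G ω).connectedComponentMk x).supp.Infinite} ∩
      ⋂ y ∈ {y : V | b + l g < h y}, {ω | (G ω).Reachable x y}ᶜ) with hA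
  have hAm : MeasurableSet A := by
    refine MeasurableSet.biUnion (Set.to_countable _) fun x _ => ?_
    exact (measurableSet_infinite hm x).inter
      (MeasurableSet.biInter (Set.to_countable _) fun y _ => (measurableSet_reachable hm x y).compl)
  have hrec := (hsh g).conservative.ae_mem_imp_frequently_image_mem hAm.nullMeasurableSet
  filter_upwards [hrec] with ω hω hf x hx h1 h2
  have : Nonempty V := ⟨x⟩
  have hmem : ω ∈ A := by
    rw [hA]
    simp only [Set.mem_iUnion, Set.mem_ofPred_eq, exists_prop]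
    refine ⟨x, h2, hx, ?_⟩
    simp only [Set.mem_iInter, Set.mem_ofPred_eq, Set.mem_compl_iff]
    intro y hy hr
    exact absurd (h1 y hr) (not_le.2 hy)
  have hfr := hω hmem
  set I : Set ℕ := {n | (sh g)^[n] ω ∈ A} with hI
  have hIinf : I.Infinite := Nat.frequently_atTop_iff_infinite.1 hfr
  have hex : ∀ n ∈ I, ∃ z, ((G ω).connectedComponentMk z).supp.Infinite ∧ b + n * l g < h z ∧
      ∀ y, (G ω).Reachable z y → h y ≤ b + l g + n * l g := by
    intro n hn
    have hn' : (sh g)^[n] ω ∈ A := hn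
    rw [hA] at hn'
    simp only [Set.mem_iUnion, Set.mem_ofPred_eq, exists_prop] at hn'
    obtain ⟨z, h3, h4, h5⟩ := hn'
    simp only [Set.mem_iInter, Set.mem_ofPred_eq, Set.mem_compl_iff] at h5
    have hS := iter_shf (G := G) (sh := sh) hadj g n ω
    have hl : l (n • g) = n * l g := by rw [map_nsmul, nsmul_eq_mul]
    refine ⟨(n • g) +ᵥ z, inf_shf hS h4, ?_, ?_⟩
    · rw [hh, hl]
      linarith
    · intro y hy
      have e : y = (n • g) +ᵥ (-(n • g) +ᵥ y) := by rw [vadd_vadd, add_neg_cancel, zero_vadd]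
      rw [e, reach_shf hS] at hy
      by_contra hcon
      refine h5 _ ?_ hy
      rw [hh, map_neg, hl]
      linarith
  choose! z hz1 hz2 hz3 using hex
  apply hIinf
  refine Set.Finite.of_finite_image (f := fun n => (G ω).connectedComponentMk (z n))
    (hf.subset ?_) ?_
  · rintro _ ⟨n, hn, rfl⟩
    exact hz1 n hn
  · have key : ∀ m ∈ I, ∀ n ∈ I, m < n →
        ¬ (G ω).connectedComponentMk (z m) = (G ω).connectedComponentMk (z n) := by
      intro m hm' n hn hmn hs
      have h6 := hz3 m hm' (z n) (reach_of_eq hs)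
      have h7 := hz2 n hn
      have h9 : (m : ℝ) + 1 ≤ n := by exact_mod_cast hmn
      nlinarith
    intro m hm' n hn hs
    rcases lt_trichotomy m n with h3 | h3 | h3
    · exact absurd hs (key m hm' n hn h3)
    · exact h3
    · exact absurd hs.symm (key n hn m hm' h3)

include hm hsh hadj hh in
/-- every infinite component is unbounded above. -/
private theorem part_two' (g : Γ) (hg : 0 < l g) :
    ∀ᵐ ω ∂P, {C : (G ω).ConnectedComponent | C.supp.Infinite}.Finite →
      ∀ x, ((G ω).connectedComponentMk x).supp.Infinite → ∀ c : ℝ,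
        ∃ y, (G ω).Reachable x y ∧ c < h y := by
  have h0 : ∀ᵐ ω ∂P, ∀ x : V, ∀ n : ℕ,
      {C : (G ω).ConnectedComponent | C.supp.Infinite}.Finite →
      ∀ z, ((G ω).connectedComponentMk z).supp.Infinite →
        (∀ y, (G ω).Reachable z y → h y ≤ (h x + n * l g - l g) + l g) →
        ¬ (h x + n * l g - l g) < h z := by
    rw [ae_all_iff]
    intro x
    rw [ae_all_iff]
    intro n
    exact part_two P G hm sh hsh hadj h l hh g hg _
  filter_upwards [h0] with ω hω hf x hx c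
  by_contra hcon
  push Not at hcon
  have hex : ∃ n : ℕ, ∀ y, (G ω).Reachable x y → h y ≤ h x + n * l g := by
    obtain ⟨n, hn⟩ := exists_nat_ge ((c - h x) / l g)
    refine ⟨n, fun y hy => (hcon y hy).trans ?_⟩
    rw [div_le_iff₀ hg] at hn
    linarith
  classical
  have h1 := Nat.find_spec hex
  rcases Nat.eq_zero_or_pos (Nat.find hex) with h2 | h2
  · rw [h2] at h1
    refine hω x 0 hf x hx (fun y hy => ?_) ?_
    · have := h1 y hy
      push_cast at this ⊢
      linarith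
    · push_cast
      linarith
  · have h3 := Nat.find_min hex (m := Nat.find hex - 1) (by omega)
    push Not at h3
    obtain ⟨y, hy, h4⟩ := h3
    have hxy : (G ω).connectedComponentMk x = (G ω).connectedComponentMk y :=
      SimpleGraph.ConnectedComponent.eq.2 hy
    have hc : ((Nat.find hex - 1 : ℕ) : ℝ) = (Nat.find hex : ℝ) - 1 := by
      rw [Nat.cast_sub h2]
      norm_num
    rw [hc] at h4
    refine hω x (Nat.find hex) hf y (hxy ▸ hx) (fun z hz => ?_) ?_
    · have := h1 z (hy.trans hz)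
      linarith
    · linarith

include hG hm hsh hadj hh in
/-- no ray starts at a strict maximum of its height and goes down to `-∞`. -/
private theorem part_three (hfree : ∀ x : V, Function.Injective fun g : Γ => g +ᵥ x)
    (g0 : Γ) (hg0 : 0 < l g0) (hslab : {g : Γ | |l g| ≤ 1}.Infinite) (x y : V) :
    ∀ᵐ ω ∂P, {C : (G ω).ConnectedComponent | C.supp.Infinite}.Finite →
      HasRay (G ω) x y → (∀ t, h (theRay (G ω) x y (t + 1)) ≤ h x) →
        ¬ ∀ c : ℕ, ∃ T, ∀ t, T ≤ t → h (theRay (G ω) x y t) < -(c : ℝ) := by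
  set B : Set Ω := {ω | {C : (G ω).ConnectedComponent | C.supp.Infinite}.Finite} ∩
    ((⋂ t : ℕ, {ω | HasRay (G ω) x y ∧ h (theRay (G ω) x y (t + 1)) ≤ h x}) ∩
      ⋂ c : ℕ, {ω | HasRay (G ω) x y ∧ ∃ T, ∀ t, T ≤ t →
        h (theRay (G ω) x y t) < -(c : ℝ)}) with hB
  have hBm : MeasurableSet B := by
    refine (measurableSet_finite hm).inter (MeasurableSet.inter ?_ ?_)
    · exact MeasurableSet.iInter fun t => meas_at G hG hm x y (t + 1) fun z => h z ≤ h x
    · exact MeasurableSet.iInter fun c => meas_ev G hG hm x y fun z => h z < -(c : ℝ)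
  have : Nonempty V := ⟨x⟩
  have hzero : P B = 0 := by
    by_contra hpos
    have hpos' : 0 < P B := pos_iff_ne_zero.2 hpos
    let e := hslab.natEmbedding
    let gg : ℕ → Γ := fun n => (e n).1
    have hgg : Function.Injective gg := fun a b hab => e.injective (Subtype.ext hab)
    have hggl : ∀ n, |l (gg n)| ≤ 1 := fun n => (e n).2
    have hfp := freq_pos P (fun n => sh (gg n) ⁻¹' B)
      (fun n => (hsh (gg n)).measurable hBm) (P B) hpos'
      (fun n => ((hsh (gg n)).measure_preimage hBm.nullMeasurableSet).ge)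
    have htwo := part_two' P G hm sh hsh hadj h l hh g0 hg0
    have hne : ∃ ω, (∃ᶠ n in atTop, ω ∈ sh (gg n) ⁻¹' B) ∧
        ({C : (G ω).ConnectedComponent | C.supp.Infinite}.Finite →
        ∀ x, ((G ω).connectedComponentMk x).supp.Infinite → ∀ c : ℝ,
        ∃ y, (G ω).Reachable x y ∧ c < h y) := by
      by_contra hcon
      push Not at hcon
      apply hfp.ne'
      refine measure_mono_null ?_ (ae_iff.1 htwo)
      intro ω hω
      have := hcon ω hω
      simp only [Set.mem_ofPred_eq, not_forall]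
      obtain ⟨h1, z, h2, c, h3⟩ := this
      refine ⟨h1, z, h2, c, ?_⟩
      push Not
      exact h3
    obtain ⟨ω, hfr, hω2⟩ := hne
    set I : Set ℕ := {n | sh (gg n) ω ∈ B} with hI
    have hIinf : I.Infinite := Nat.frequently_atTop_iff_infinite.1 hfr
    have hf : {C : (G ω).ConnectedComponent | C.supp.Infinite}.Finite := by
      obtain ⟨n, hn⟩ := hIinf.nonempty
      exact fin_shf (fun a b => hadj (gg n) ω a b) hn.1
    have hex : ∀ n ∈ I, ∃ σ, IsRay (G ω) σ ∧ σ 0 = gg n +ᵥ x ∧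
        (∀ t, h (σ t) ≤ h x + 1) ∧ ∀ c : ℝ, ∃ T, ∀ t, T ≤ t → h (σ t) < c := by
      intro n hn
      have hS : Shf (G (sh (gg n) ω)) (G ω) (gg n) := fun a b => hadj (gg n) ω a b
      obtain ⟨-, h1, h2⟩ := hn
      simp only [Set.mem_iInter, Set.mem_ofPred_eq] at h1 h2
      have h3 := (h2 0).1
      obtain ⟨h4, h5, h6⟩ := theRay_spec h3
      have h7 := abs_le.1 (hggl n)
      refine ⟨_, ray_shf hS h4, ?_, ?_, ?_⟩
      · show gg n +ᵥ theRay (G (sh (gg n) ω)) x y 0 = gg n +ᵥ x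
        rw [h5]
      · intro t
        show h (gg n +ᵥ theRay (G (sh (gg n) ω)) x y t) ≤ _
        rw [hh]
        rcases t with _ | t
        · rw [h5]
          linarith
        · have := (h1 t).2
          linarith
      · intro c
        obtain ⟨k, hk⟩ := exists_nat_ge (1 - c)
        obtain ⟨T, hT⟩ := (h2 k).2
        refine ⟨T, fun t ht => ?_⟩
        show h (gg n +ᵥ theRay (G (sh (gg n) ω)) x y t) < c
        rw [hh]
        have := hT t ht
        linarith
    choose! r hr1 hr2 hr3 hr4 using hex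
    obtain ⟨m, hmI, hJ⟩ := exists_class (hG ω) hf I hIinf r hr1
    set J : Set ℕ := {n | n ∈ I ∧ Same (r m) (r n)} with hJdef
    have hbd : ∀ w, (G ω).Reachable (r m 0) w → h w ≤ h x + 1 := by
      intro w hw
      obtain ⟨σ, a, b, hσ, hσ0, hσt⟩ := exists_ray (hG ω) (hr1 m hmI) hw
      have hsame : Same σ (r m) := ⟨a, b, hσt⟩
      by_contra hcon
      push Not at hcon
      have hmem : ∀ n ∈ J, ∃ t, σ t = r n 0 := by
        intro n hn
        rcases start_mem (hG ω) hσ (hr1 n hn.1) (hsame.trans hn.2) with ⟨b', hb'⟩ | ⟨a', ha'⟩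
        · exfalso
          rw [← hσ0, hb'] at hcon
          exact absurd (hr3 n hn.1 b') (not_le.2 hcon)
        · exact ⟨a', ha'.symm⟩
      -- `σ` goes down to `-∞`
      obtain ⟨T, hT⟩ := hr4 m hmI (h x - 1)
      have hdown : ∀ t, a + T ≤ t → h (σ t) < h x - 1 := by
        intro t ht
        obtain ⟨u, rfl⟩ : ∃ u, t = a + (T + u) := ⟨t - a - T, by omega⟩
        rw [hσt]
        exact hT _ (by omega)
      choose! τ hτ using hmem
      apply hJ
      have hinj : Set.InjOn τ J := by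
        intro n hn k hk hnk
        have h1 := hτ n hn
        rw [hnk, hτ k hk, hr2 n hn.1, hr2 k hk.1] at h1
        exact hgg (hfree x h1).symm
      refine Set.Finite.of_finite_image ((Set.finite_Iio (a + T)).subset ?_) hinj
      rintro _ ⟨n, hn, rfl⟩
      rw [Set.mem_Iio]
      by_contra hlt
      have h1 := hdown (τ n) (by omega)
      rw [hτ n hn, hr2 n hn.1, hh] at h1
      have := abs_le.1 (hggl n)
      linarith
    obtain ⟨w, hw, hw2⟩ := hω2 hf (r m 0) (hr1 m hmI).infinite (h x + 1)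
    exact absurd (hbd w hw) (not_le.2 hw2)
  have hae : ∀ᵐ ω ∂P, ω ∉ B := measure_eq_zero_iff_ae_notMem.1 hzero
  filter_upwards [hae] with ω hω hf hr h1 h2
  apply hω
  refine ⟨hf, ?_, ?_⟩
  · simp only [Set.mem_iInter, Set.mem_ofPred_eq]
    exact fun t => ⟨hr, h1 t⟩
  · simp only [Set.mem_iInter, Set.mem_ofPred_eq]
    exact fun c => ⟨hr, h2 c⟩

end main

theorem oscillate {V Ω Γ : Type*} [Countable V] [MeasurableSpace Ω] [AddCommGroup Γ]
    [AddAction Γ V] (P : Measure Ω) [IsProbabilityMeasure P] (G : Ω → SimpleGraph V)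
    (hG : ∀ ω, Deg2 (G ω)) (hm : ∀ x y, MeasurableSet {ω | (G ω).Adj x y})
    (sh : Γ → Ω → Ω) (hsh : ∀ g, MeasurePreserving (sh g) P P)
    (hadd : ∀ g h ω, sh g (sh h ω) = sh (g + h) ω)
    (hadj : ∀ g ω x y, (G (sh g ω)).Adj x y ↔ (G ω).Adj (g +ᵥ x) (g +ᵥ y))
    (hfree : ∀ x : V, Function.Injective fun g : Γ => g +ᵥ x)
    (h : V → ℝ) (l : Γ →+ ℝ) (hh : ∀ g x, h (g +ᵥ x) = h x + l g)
    (hpos : ∃ g, l g ≠ 0) (hslab : {g : Γ | |l g| ≤ 1}.Infinite) :
    ∀ᵐ ω ∂P, {C : (G ω).ConnectedComponent | C.supp.Infinite}.Finite →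
      ∀ ρ, IsRay (G ω) ρ → ∀ c : ℝ, {t | c ≤ h (ρ t)}.Infinite := by
  obtain ⟨g0, hg0⟩ : ∃ g, 0 < l g := by
    obtain ⟨g, hg⟩ := hpos
    rcases lt_or_gt_of_ne hg with h1 | h1
    · refine ⟨-g, ?_⟩
      rw [map_neg]
      linarith
    · exact ⟨g, h1⟩
  have h1 : ∀ᵐ ω ∂P, ∀ x : V, ∀ n : ℤ,
      {C : (G ω).ConnectedComponent | C.supp.Infinite}.Finite →
      ∀ ρ, IsRay (G ω) ρ → (∃ T, ∀ t, T ≤ t → h (ρ t) ≤ (h x + n * l g0 - l g0) + l g0) →
        ¬ ∀ T, ∃ t, T ≤ t ∧ (h x + n * l g0 - l g0) < h (ρ t) := by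
    rw [ae_all_iff]
    intro x
    rw [ae_all_iff]
    intro n
    exact part_one P G hG hm sh hsh hadj h l hh g0 hg0 _
  have h3 : ∀ᵐ ω ∂P, ∀ x y : V,
      {C : (G ω).ConnectedComponent | C.supp.Infinite}.Finite →
      HasRay (G ω) x y → (∀ t, h (theRay (G ω) x y (t + 1)) ≤ h x) →
        ¬ ∀ c : ℕ, ∃ T, ∀ t, T ≤ t → h (theRay (G ω) x y t) < -(c : ℝ) := by
    rw [ae_all_iff]
    intro x
    rw [ae_all_iff]
    intro y
    exact part_three P G hG hm sh hsh hadj h l hh hfree g0 hg0 hslab x y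
  filter_upwards [h1, h3] with ω hω1 hω3 hf ρ hρ c
  by_contra hcon
  have hfin : {t | c ≤ h (ρ t)}.Finite := Set.not_infinite.1 hcon
  -- eventually below `c`
  obtain ⟨T0, hT0⟩ : ∃ T, ∀ t, T ≤ t → h (ρ t) < c := by
    obtain ⟨M, hM⟩ := hfin.bddAbove
    refine ⟨M + 1, fun t ht => ?_⟩
    by_contra hlt
    have := hM (show t ∈ {t | c ≤ h (ρ t)} from not_lt.1 hlt)
    omega
  by_cases hdown : ∀ c' : ℝ, ∃ T, ∀ t, T ≤ t → h (ρ t) < c'
  · -- the last maximum
    obtain ⟨T1, hT1⟩ := hdown (h (ρ 0))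
    obtain ⟨s, hs, hsmax⟩ : ∃ s ∈ Finset.range (T1 + 1), ∀ t ∈ Finset.range (T1 + 1),
        h (ρ t) ≤ h (ρ s) :=
      Finset.exists_max_image _ (fun t => h (ρ t)) ⟨0, by simp⟩
    have hall : ∀ t, h (ρ t) ≤ h (ρ s) := by
      intro t
      by_cases ht : t < T1 + 1
      · exact hsmax t (Finset.mem_range.2 ht)
      · exact (hT1 t (by omega)).le.trans (hsmax 0 (by simp))
    have hray : IsRay (G ω) fun t => ρ (s + t) := hρ.tail s
    have he := theRay_eq (hG ω) hray
    simp only [add_zero] at he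
    refine hω3 (ρ s) (ρ (s + 1)) hf ⟨_, hray, by simp, rfl⟩ ?_ ?_
    · intro t
      rw [he]
      exact hall _
    · intro k
      obtain ⟨T, hT⟩ := hdown (-(k : ℝ))
      refine ⟨T, fun t ht => ?_⟩
      rw [he]
      exact hT _ (by omega)
  · push Not at hdown
    obtain ⟨c', hc'⟩ := hdown
    set Q : ℤ → Prop := fun n => ∃ T, ∀ t, T ≤ t → h (ρ t) ≤ h (ρ 0) + n * l g0 with hQ
    have hinh : ∃ n, Q n := by
      obtain ⟨n, hn⟩ := exists_nat_ge ((c - h (ρ 0)) / l g0)
      refine ⟨n, T0, fun t ht => (hT0 t ht).le.trans ?_⟩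
      rw [div_le_iff₀ hg0] at hn
      push_cast
      linarith
    have hbdd : ∃ b : ℤ, ∀ n, Q n → b ≤ n := by
      obtain ⟨n, hn⟩ := exists_nat_ge ((h (ρ 0) - c') / l g0)
      refine ⟨-n, fun k hk => ?_⟩
      obtain ⟨T, hT⟩ := hk
      obtain ⟨t, ht, h5⟩ := hc' T
      have h6 := h5.trans (hT t ht)
      rw [div_le_iff₀ hg0] at hn
      by_contra hlt
      have h7 : (k : ℝ) + 1 ≤ -(n : ℝ) := by
        have : k + 1 ≤ -(n : ℤ) := by omega
        exact_mod_cast this
      nlinarith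
    obtain ⟨n, hn1, hn2⟩ := Int.exists_least_of_bdd hbdd hinh
    obtain ⟨T, hT⟩ := hn1
    refine hω1 (ρ 0) n hf ρ hρ ⟨T, fun t ht => ?_⟩ ?_
    · have := hT t ht
      linarith
    · intro T'
      by_contra hno
      push Not at hno
      have hbad : Q (n - 1) := by
        refine ⟨T', fun t ht => ?_⟩
        have := hno t ht
        push_cast
        linarith
      have := hn2 _ hbad
      omega

end H76.TP
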