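import Pool.Agent.H76.TP.Count
import Pool.Agent.H76.TP.Density
import Pool.Agent.H76.TP.Osc

/-!
The lattice version of the density theorem and of the oscillation theorem.
-/

open MeasureTheory Filter

namespace H76.TP

/-- windows. -/
noncomputable def box (d : ℕ) (N : ℕ) : Finset (Fin d → ℤ) := Finset.Icc 0 fun _ => (N : ℤ)

noncomputable def bigBox (d : ℕ) (N : ℕ) : Finset (Fin d → ℤ) := Finset.Icc (fun _ => -(N : ℤ)) fun _ => (N : ℤ)

theorem card_box (d N : ℕ) : (box d N).card = (N + 1) ^ d := by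
  unfold box
  rw [Pi.card_Icc]
  simp

theorem card_bigBox (d N : ℕ) : (bigBox d N).card = (2 * N + 1) ^ d := by
  unfold bigBox
  rw [Pi.card_Icc]
  have : ((N : ℤ) + 1 - -(N : ℤ)).toNat = 2 * N + 1 := by omega
  simp only [Int.card_Icc, this, Finset.prod_const, Finset.card_univ, Fintype.card_fin]

theorem sub_mem_bigBox {d N : ℕ} {a b : Fin d → ℤ} (ha : a ∈ box d N) (hb : b ∈ box d N) :
    b - a ∈ bigBox d N := by
  unfold box at ha hb
  unfold bigBox
  rw [Finset.mem_Icc] at ha hb ⊢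
  constructor
  · intro i
    have h1 := ha.2 i
    have h2 := hb.1 i
    simp only [Pi.zero_apply, Pi.sub_apply] at *
    omega
  · intro i
    have h1 := ha.1 i
    have h2 := hb.2 i
    simp only [Pi.zero_apply, Pi.sub_apply] at *
    omega

theorem card_le (d N : ℕ) : (bigBox d N).card ≤ 2 ^ d * (box d N).card := by
  rw [card_box, card_bigBox, ← mul_pow]
  exact Nat.pow_le_pow_left (by omega) d

theorem tendsto_box {d : ℕ} (hd : d ≠ 0) : Tendsto (fun N => (box d N).card) atTop atTop := by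
  refine tendsto_atTop_mono (fun N => ?_) tendsto_id
  rw [card_box]
  calc N ≤ N + 1 := by omega
    _ ≤ (N + 1) ^ d := Nat.le_self_pow hd _

theorem lines (μ : Measure (Fin 3)) [IsProbabilityMeasure μ] :
    ∀ᵐ ω ∂law μ, (infinitePaths ω).Finite → ∀ ρ, IsRay (tri ω) ρ → ∀ (W : Finset bcc) (d : ℕ)
      (e : Fin d → bcc), LinearIndependent ℤ e → ∃ ε : ℝ, 0 < ε ∧ ∃ᶠ N : ℕ in atTop,
        ε * (2 * N + 1) ^ d ≤ (returns ω ρ W e N).ncard := by
  have key : ∀ (x : Vertex) (W : Finset bcc) (a : W → Fin 3) (d : ℕ) (e : Fin d → bcc),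
      ∀ᵐ ω ∂law μ, (infinitePaths ω).Finite → (∀ v : W, ω v.1 = a v) → ∀ ρ, IsRay (tri ω) ρ →
      ρ 0 = x → LinearIndependent ℤ e → ∃ ε : ℝ, 0 < ε ∧ ∃ᶠ N : ℕ in atTop,
        ε * (2 * N + 1) ^ d ≤ (returns ω ρ W e N).ncard := by
    intro x W a d e
    by_cases he : LinearIndependent ℤ e
    swap
    · exact Eventually.of_forall fun ω _ _ ρ _ _ h => absurd h he
    rcases Nat.eq_zero_or_pos d with rfl | hd
    · refine Eventually.of_forall fun ω _ _ ρ _ _ _ => ⟨1, one_pos, Eventually.frequently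
        (Eventually.of_forall fun N => ?_)⟩
      rw [pow_zero, mul_one]
      have : (1 : ℕ) ≤ (returns ω ρ W e N).ncard := by
        rw [Nat.one_le_iff_ne_zero, ← Nat.pos_iff_ne_zero, Set.ncard_pos (Set.toFinite _)]
        refine ⟨0, fun i => i.elim0, ⟨0, fun v => ?_⟩, fun v _ => ?_⟩
        · simp [comb]
        · simp [comb]
      exact_mod_cast this
    let _ : AddAction (Fin d → ℤ) Vertex :=
      AddAction.compHom Vertex (Fintype.linearCombination ℤ e).toAddMonoidHom
    have hv : ∀ (m : Fin d → ℤ) (Q : Vertex), m +ᵥ Q = (∑ i, m i • e i : bcc) +ᵥ Q := by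
      intro m Q
      rfl
    have hinj : Function.Injective fun m : Fin d → ℤ => (∑ i, m i • e i : bcc) := by
      have := linearIndependent_iff_injective_fintypeLinearCombination.1 he
      intro m m' h
      exact this h
    have hB : MeasurableSet {ω : bcc → Fin 3 | ∀ v : W, ω v.1 = a v} := by
      have : {ω : bcc → Fin 3 | ∀ v : W, ω v.1 = a v} = ⋂ v : W, {ω | ω v.1 = a v} := by
        ext ω
        simp
      rw [this]
      refine MeasurableSet.iInter fun v => ?_
      have hv : Measurable fun ω : bcc → Fin 3 => ω v.1 := measurable_pi_apply _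
      exact hv (measurableSet_singleton (a v))
    have h := density (Γ := Fin d → ℤ) (law μ) tri deg2_tri measurableSet_adj
      (fun m => sh (∑ i, m i • e i)) (fun m => sh_mp μ _)
      (fun m m' ω => by
        rw [sh_sh]
        congr 1
        simp only [Pi.add_apply, add_smul, Finset.sum_add_distrib])
      (fun m ω Q R => adj_sh _ ω Q R) (box d) (bigBox d)
      (fun N a ha b hb => sub_mem_bigBox ha hb) (2 ^ d) (card_le d) (tendsto_box hd.ne') x
      (fun m m' hm => hinj (free x hm)) _ hB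
    filter_upwards [h] with ω h hfin hω ρ hρ h0 _
    obtain ⟨ε, hε, hf⟩ := h hfin hω ρ hρ h0
    refine ⟨ε / 2 ^ d, by positivity, hf.mono fun N hN => ?_⟩
    have h1 : ε / 2 ^ d * (2 * N + 1) ^ d ≤ ε * (box d N).card := by
      have : ((2 * N + 1 : ℝ)) ^ d ≤ 2 ^ d * (box d N).card := by
        have := card_le d N
        rw [card_bigBox] at this
        exact_mod_cast this
      calc ε / 2 ^ d * (2 * N + 1) ^ d ≤ ε / 2 ^ d * (2 ^ d * (box d N).card) := by gcongr
        _ = ε * (box d N).card := by field_simp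
    refine h1.trans (hN.trans ?_)
    have hsub : {m : Fin d → ℤ | m ∈ bigBox d N ∧ m +ᵥ x ∈ Set.range ρ ∧
        sh (∑ i, m i • e i) ω ∈ {ω : bcc → Fin 3 | ∀ v : W, ω v.1 = a v}} ⊆
        returns ω ρ W e N := by
      rintro m ⟨hm, ⟨t, ht⟩, hp⟩
      refine ⟨fun i => ?_, ⟨t, fun v => ?_⟩, fun v hvW => ?_⟩
      · unfold bigBox at hm
        rw [Finset.mem_Icc] at hm
        exact abs_le.2 ⟨hm.1 i, hm.2 i⟩
      · show v ∈ (ρ 0).1 ↔ v + ∑ i, m i • e i ∈ (ρ t).1
        rw [ht, hv, h0, add_comm v, mem_vadd]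
      · have h1 : ω (v + ∑ i, m i • e i) = a ⟨v, hvW⟩ := hp ⟨v, hvW⟩
        show ω (v + ∑ i, m i • e i) = ω v
        rw [h1, ← hω ⟨v, hvW⟩]
    have hfin' : (returns ω ρ W e N).Finite := by
      refine (bigBox d N).finite_toSet.subset fun m hm => ?_
      unfold bigBox
      rw [Finset.mem_coe, Finset.mem_Icc]
      exact ⟨fun i => (abs_le.1 (hm.1 i)).1, fun i => (abs_le.1 (hm.1 i)).2⟩
    exact_mod_cast Set.ncard_le_ncard hsub hfin'
  have key' : ∀ᵐ ω ∂law μ, ∀ (x : Vertex) (W : Finset bcc) (a : W → Fin 3) (d : ℕ)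
      (e : Fin d → bcc), (infinitePaths ω).Finite → (∀ v : W, ω v.1 = a v) →
      ∀ ρ, IsRay (tri ω) ρ →
      ρ 0 = x → LinearIndependent ℤ e → ∃ ε : ℝ, 0 < ε ∧ ∃ᶠ N : ℕ in atTop,
        ε * (2 * N + 1) ^ d ≤ (returns ω ρ W e N).ncard := by
    rw [ae_all_iff]
    intro x
    rw [ae_all_iff]
    intro W
    rw [ae_all_iff]
    intro a
    rw [ae_all_iff]
    intro d
    rw [ae_all_iff]
    intro e
    exact key x W a d e
  filter_upwards [key'] with ω h hfin ρ hρ W d e he
  exact h (ρ 0) W (fun v => ω v.1) d e hfin (fun v => rfl) ρ hρ rfl he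

end H76.TP
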