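import Pool.Agent.H76.TP.Deg

/-!
Translations of the vertices of the tessellation, shifts of the colourings.
-/

open MeasureTheory

namespace H76.TP

theorem near_add {v w : bcc} (g : bcc) : Near (g + v) (g + w) ↔ Near v w := by
  have e : ∀ i, (g + v).1 i - (g + w).1 i = v.1 i - w.1 i := by
    intro i
    simp
  have e' : ∀ i, (g + v).1 i = (g + w).1 i ↔ v.1 i = w.1 i := by
    intro i
    simp
  unfold Near
  simp only [e, e']

theorem mutual_map {Q : Finset bcc} (g : bcc) :
    Mutual (Q.map (addLeftEmbedding g)) ↔ Mutual Q := by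
  unfold Mutual
  simp only [Finset.mem_map, addLeftEmbedding_apply, forall_exists_index, and_imp,
    forall_apply_eq_imp_iff₂]
  constructor
  · intro h v hv w hw hne
    exact (near_add g).1 (h v hv w hw fun h => hne (add_left_cancel h))
  · intro h v hv w hw hne
    exact (near_add g).2 (h v hv w hw fun h => hne (by rw [h]))

instance : AddAction bcc Vertex where
  vadd g Q := ⟨Q.1.map (addLeftEmbedding g), by rw [Finset.card_map]; exact Q.2.1,
    (mutual_map g).2 Q.2.2⟩
  zero_vadd Q := by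
    apply Subtype.ext
    show Q.1.map (addLeftEmbedding 0) = Q.1
    ext v
    simp
  add_vadd g h Q := by
    apply Subtype.ext
    show Q.1.map (addLeftEmbedding (g + h)) =
      (Q.1.map (addLeftEmbedding h)).map (addLeftEmbedding g)
    ext v
    simp only [Finset.mem_map, addLeftEmbedding_apply]
    constructor
    · rintro ⟨a, ha, rfl⟩
      exact ⟨h + a, ⟨a, ha, rfl⟩, by rw [add_assoc]⟩
    · rintro ⟨_, ⟨a, ha, rfl⟩, rfl⟩
      exact ⟨a, ha, by rw [add_assoc]⟩

theorem vadd_val (g : bcc) (Q : Vertex) : (g +ᵥ Q).1 = Q.1.map (addLeftEmbedding g) := rfl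

theorem mem_vadd (g : bcc) (Q : Vertex) (v : bcc) : g + v ∈ (g +ᵥ Q).1 ↔ v ∈ Q.1 := by
  rw [vadd_val]
  simp

/-- the shift of a colouring. -/
def sh (g : bcc) (ω : bcc → Fin 3) : bcc → Fin 3 := fun v => ω (v + g)

theorem sh_sh (g h : bcc) (ω : bcc → Fin 3) : sh g (sh h ω) = sh (g + h) ω := by
  funext v
  show ω (v + g + h) = ω (v + (g + h))
  rw [add_assoc]

theorem allColours_map {g : bcc} {ω : bcc → Fin 3} {T : Finset bcc} :
    AllColours ω (T.map (addLeftEmbedding g)) ↔ AllColours (sh g ω) T := by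
  unfold AllColours sh
  simp only [Finset.mem_map, addLeftEmbedding_apply, exists_exists_and_eq_and]
  simp only [add_comm]

theorem adj_sh (g : bcc) (ω : bcc → Fin 3) (Q R : Vertex) :
    (tri (sh g ω)).Adj Q R ↔ (tri ω).Adj (g +ᵥ Q) (g +ᵥ R) := by
  constructor
  · rintro ⟨hne, T, h3, hm, hQ, hR, hc⟩
    refine ⟨fun h => hne (AddAction.injective g h), T.map (addLeftEmbedding g), ?_,
      (mutual_map g).2 hm, ?_, ?_, allColours_map.2 hc⟩
    · rw [Finset.card_map, h3]
    · exact Finset.map_subset_map.2 hQ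
    · exact Finset.map_subset_map.2 hR
  · rintro ⟨hne, T, h3, hm, hQ, hR, hc⟩
    have hT : (T.map (addLeftEmbedding (-g))).map (addLeftEmbedding g) = T := by
      ext v
      simp only [Finset.mem_map, addLeftEmbedding_apply]
      constructor
      · rintro ⟨_, ⟨a, ha, rfl⟩, rfl⟩
        simpa using ha
      · intro hv
        exact ⟨-g + v, ⟨v, hv, rfl⟩, by simp⟩
    refine ⟨fun h => hne (by rw [h]), T.map (addLeftEmbedding (-g)), ?_, ?_, ?_, ?_, ?_⟩
    · rw [Finset.card_map, h3]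
    · exact (mutual_map (-g)).2 hm
    · rw [← hT] at hQ
      exact Finset.map_subset_map.1 hQ
    · rw [← hT] at hR
      exact Finset.map_subset_map.1 hR
    · rw [← allColours_map, hT]
      exact hc

/-- the sum of the four cells. -/
def bary (Q : Vertex) : Fin 3 → ℤ := fun i => ∑ v ∈ Q.1, v.1 i

theorem bary_vadd (g : bcc) (Q : Vertex) (i : Fin 3) : bary (g +ᵥ Q) i = bary Q i + 4 * g.1 i := by
  unfold bary
  rw [vadd_val, Finset.sum_map]
  have : ∀ v : bcc, ((addLeftEmbedding g v : bcc).1 i : ℤ) = g.1 i + v.1 i := fun v => by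
    simp
  simp only [this]
  rw [Finset.sum_add_distrib, Finset.sum_const, Q.2.1]
  simp only [nsmul_eq_mul, Nat.cast_ofNat]
  ring

theorem free (Q : Vertex) : Function.Injective fun g : bcc => g +ᵥ Q := by
  intro g h hgh
  apply Subtype.ext
  funext i
  have hgh' : g +ᵥ Q = h +ᵥ Q := hgh
  have h1 := bary_vadd g Q i
  have h2 := bary_vadd h Q i
  rw [hgh'] at h1
  omega

theorem measurableSet_adj (Q R : Vertex) : MeasurableSet {ω | (tri ω).Adj Q R} := by
  have e : {ω | (tri ω).Adj Q R} = ⋃ T : Finset bcc, ⋂ c : Fin 3, ⋃ v : bcc,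
      {ω | (Q ≠ R ∧ T.card = 3 ∧ Mutual T ∧ T ⊆ Q.1 ∧ T ⊆ R.1 ∧ v ∈ T) ∧ ω v = c} := by
    ext ω
    simp only [Set.mem_ofPred_eq, Set.mem_iUnion, Set.mem_iInter]
    constructor
    · rintro ⟨hne, T, h3, hm, hQ, hR, hc⟩
      refine ⟨T, fun c => ?_⟩
      obtain ⟨v, hv, h⟩ := hc c
      exact ⟨v, ⟨hne, h3, hm, hQ, hR, hv⟩, h⟩
    · rintro ⟨T, h⟩
      obtain ⟨v, ⟨hne, h3, hm, hQ, hR, -⟩, -⟩ := h 0
      refine ⟨hne, T, h3, hm, hQ, hR, fun c => ?_⟩
      obtain ⟨v, ⟨-, -, -, -, -, hv⟩, h⟩ := h c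
      exact ⟨v, hv, h⟩
  rw [e]
  refine MeasurableSet.iUnion fun T => MeasurableSet.iInter fun c => MeasurableSet.iUnion fun v =>
    ?_
  refine (MeasurableSet.const _).inter ?_
  have hv : Measurable fun ω : bcc → Fin 3 => ω v := measurable_pi_apply v
  exact hv (measurableSet_singleton c)

end H76.TP
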